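import Pool.Agent.Helper16.MK.Vec

/-!
MK-06. Balance: upper bound of the sum of the small coordinates; and the cross sums.

Proof of `balance`. Let `x = |PX v|`, `y = |NY v| ≤ x`, `r = |TT v| = x + y ≤ 2 x` (`card_TT`). By
`Adm.neg`: `1 - τ ≤ ∏ |1 - v i|`. Split `univ = SM v ∪ PX v ∪ NY v` (`SM_union_TT`, `TT_eq`,
`disj_SM_TT`, `disj_PX_NY`). On `SM v`: `|1 - v i| = 1 - v i ≤ exp (-v i)`. On `PX v`:
`abs_one_sub_add_le` with `b = v i`, `w = 0`. On `NY v`: `abs_one_add_le` with `b = -v i`. So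
`1 - τ ≤ exp (-∑_{SM} v i) (√2 - 1)^x (√2 + 1)^y exp (4 ε x + 2 ∑_{PX} (a - |v i|) + ε y)` and
`∑_{PX} (a - |v i|) ≤ ∑_{TT} (a - |v i|) ≤ 26 ε r ≤ 52 ε x` (`tt_le`); `4 + 104 + 1 = 109`.
Proof of `cross_le`. On `NY v' \ NY v` (disjoint from `PX v' = PX v`) the coordinates of `v` are small,
i.e. this set is a subset of `SM v`; `|t| ≤ 1/1000 + 250 t²` (AM-GM), so the sum is at most
`|NY v'|/1000 + 250 ∑_{SM} v i² ≤ x/1000 + 250 · 7 ε · 2 x ≤ 12/10000 x` (`sm_le`).
-/

set_option autoImplicit false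

namespace Pool.Agent.Helper16.MK

open Finset

variable {ι : Type*} [Fintype ι]

theorem balance {V : AddSubgroup (ι → ℝ)} (hV : Adm V) {v : ι → ℝ} (hv : v ∈ V)
    (hb : InBox v) (h0 : v ≠ 0) (hxy : (NY v).card ≤ (PX v).card) :
    (1 - tau) * Real.exp (∑ i ∈ SM v, v i) ≤
      (√2 - 1) ^ (PX v).card * (√2 + 1) ^ (NY v).card *
        Real.exp (109 * eps * (PX v).card) := by
  classical
  have hs2 := sqrt2_lb
  have hprod : ∏ i, |1 - v i| =
      (∏ i ∈ SM v, |1 - v i|) * ((∏ i ∈ PX v, |1 - v i|) * ∏ i ∈ NY v, |1 - v i|) := by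
    rw [← Finset.prod_union (disj_PX_NY v), ← TT_eq, ← Finset.prod_union (disj_SM_TT v),
      SM_union_TT]
  have h1 : ∏ i ∈ SM v, |1 - v i| ≤ Real.exp (-∑ i ∈ SM v, v i) := by
    rw [← Finset.sum_neg_distrib, Real.exp_sum]
    refine Finset.prod_le_prod (fun i _ => abs_nonneg _) (fun i hi => ?_)
    have h := abs_lt.1 (mem_SM.1 hi)
    rw [abs_of_pos (by linarith)]
    have := Real.add_one_le_exp (-v i)
    linarith
  have h2 : ∏ i ∈ PX v, |1 - v i| ≤
      (√2 - 1) ^ (PX v).card * Real.exp (∑ i ∈ PX v, (4 * eps + 2 * (aa - |v i|))) := by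
    rw [Real.exp_sum, ← Finset.prod_const, ← Finset.prod_mul_distrib]
    refine Finset.prod_le_prod (fun i _ => abs_nonneg _) (fun i hi => ?_)
    have hi' := mem_PX.1 hi
    have hpos : |v i| = v i := abs_of_nonneg (by linarith)
    have hlt : v i < aa := by
      have := hb i
      rwa [hpos] at this
    have := abs_one_sub_add_le (w := 0) hi' hlt
    simpa [hpos] using this
  have h3 : ∏ i ∈ NY v, |1 - v i| ≤
      (√2 + 1) ^ (NY v).card * Real.exp (∑ i ∈ NY v, eps) := by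
    rw [Real.exp_sum, ← Finset.prod_const, ← Finset.prod_mul_distrib]
    refine Finset.prod_le_prod (fun i _ => abs_nonneg _) (fun i hi => ?_)
    have hi' := mem_NY.1 hi
    have hneg : |v i| = -v i := abs_of_nonpos (by linarith)
    have hlt : -v i < aa := by
      have := hb i
      rwa [hneg] at this
    have := abs_one_add_le (b := -v i) (by linarith) hlt
    rwa [← sub_eq_add_neg] at this
  have hsub : ∑ i ∈ PX v, (aa - |v i|) ≤ ∑ i ∈ TT v, (aa - |v i|) := by
    refine Finset.sum_le_sum_of_subset_of_nonneg ?_ (fun i _ _ => by linarith [hb i])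
    rw [TT_eq]
    exact Finset.subset_union_left
  have htt := tt_le hV hv hb h0
  have hcard : ((TT v).card : ℝ) = (PX v).card + (NY v).card := by
    rw [card_TT]
    push_cast
    ring
  have hxy' : ((NY v).card : ℝ) ≤ (PX v).card := by exact_mod_cast hxy
  have hexp : -∑ i ∈ SM v, v i + (∑ i ∈ PX v, (4 * eps + 2 * (aa - |v i|)) +
      ∑ i ∈ NY v, eps) ≤ -∑ i ∈ SM v, v i + 109 * eps * (PX v).card := by
    rw [Finset.sum_add_distrib, Finset.sum_const, Finset.sum_const, ← Finset.mul_sum,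
      nsmul_eq_mul, nsmul_eq_mul]
    rw [hcard] at htt
    have he := eps_pos
    nlinarith [mul_le_mul_of_nonneg_left hxy' he.le]
  have hmain : 1 - tau ≤ (√2 - 1) ^ (PX v).card * (√2 + 1) ^ (NY v).card *
      Real.exp (-∑ i ∈ SM v, v i + 109 * eps * (PX v).card) := by
    refine (hV.neg hv).trans ?_
    rw [hprod]
    have hA : 0 ≤ ∏ i ∈ PX v, |1 - v i| := Finset.prod_nonneg (fun i _ => abs_nonneg _)
    have hB : 0 ≤ ∏ i ∈ NY v, |1 - v i| := Finset.prod_nonneg (fun i _ => abs_nonneg _)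
    have hs : 0 ≤ (√2 - 1) ^ (PX v).card := pow_nonneg (by linarith) _
    have hs' : 0 ≤ (√2 + 1) ^ (NY v).card := pow_nonneg (by linarith) _
    refine (mul_le_mul h1 (mul_le_mul h2 h3 hB (mul_nonneg hs (Real.exp_pos _).le))
      (mul_nonneg hA hB) (Real.exp_pos _).le).trans ?_
    have : Real.exp (-∑ i ∈ SM v, v i) *
        ((√2 - 1) ^ (PX v).card * Real.exp (∑ i ∈ PX v, (4 * eps + 2 * (aa - |v i|))) *
          ((√2 + 1) ^ (NY v).card * Real.exp (∑ i ∈ NY v, eps))) =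
        (√2 - 1) ^ (PX v).card * (√2 + 1) ^ (NY v).card *
          Real.exp (-∑ i ∈ SM v, v i + (∑ i ∈ PX v, (4 * eps + 2 * (aa - |v i|)) +
            ∑ i ∈ NY v, eps)) := by
      rw [Real.exp_add, Real.exp_add]
      ring
    rw [this]
    exact mul_le_mul_of_nonneg_left (Real.exp_le_exp.2 hexp) (mul_nonneg hs hs')
  rw [Real.exp_add, Real.exp_neg] at hmain
  have hE := Real.exp_pos (∑ i ∈ SM v, v i)
  calc (1 - tau) * Real.exp (∑ i ∈ SM v, v i)
      ≤ ((√2 - 1) ^ (PX v).card * (√2 + 1) ^ (NY v).card *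
        ((Real.exp (∑ i ∈ SM v, v i))⁻¹ * Real.exp (109 * eps * (PX v).card))) *
          Real.exp (∑ i ∈ SM v, v i) := mul_le_mul_of_nonneg_right hmain hE.le
    _ = (√2 - 1) ^ (PX v).card * (√2 + 1) ^ (NY v).card *
        Real.exp (109 * eps * (PX v).card) := by
      field_simp

theorem cross_le [DecidableEq ι] {V : AddSubgroup (ι → ℝ)} (hV : Adm V) {v v' : ι → ℝ}
    (hv : v ∈ V) (hb : InBox v) (h0 : v ≠ 0) (hX : PX v' = PX v)
    (hxy : (NY v).card ≤ (PX v).card) (hxy' : (NY v').card ≤ (PX v).card) :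
    ∑ i ∈ NY v' \ NY v, |v i| ≤ 12 / 10000 * (PX v).card := by
  have hsub : NY v' \ NY v ⊆ SM v := by
    intro i hi
    rw [Finset.mem_sdiff] at hi
    have h1 : i ∉ PX v := by
      rw [← hX]
      exact fun h => (Finset.disjoint_left.1 (disj_PX_NY v') h) hi.1
    have h2 : i ∉ NY v := hi.2
    rw [mem_PX] at h1
    rw [mem_NY] at h2
    rw [mem_SM, abs_lt]
    constructor <;> linarith
  have hpt : ∀ i, |v i| ≤ 1 / 1000 + 250 * v i ^ 2 := by
    intro i
    rw [← sq_abs (v i)]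
    nlinarith [sq_nonneg (500 * |v i| - 1)]
  have h1 : ∑ i ∈ NY v' \ NY v, |v i| ≤
      (NY v').card * (1 / 1000) + 250 * ∑ i ∈ SM v, v i ^ 2 := by
    calc ∑ i ∈ NY v' \ NY v, |v i| ≤ ∑ i ∈ NY v' \ NY v, (1 / 1000 + 250 * v i ^ 2) :=
          Finset.sum_le_sum (fun i _ => hpt i)
      _ = ((NY v' \ NY v).card : ℝ) * (1 / 1000) + 250 * ∑ i ∈ NY v' \ NY v, v i ^ 2 := by
          rw [Finset.sum_add_distrib, ← Finset.mul_sum, Finset.sum_const, nsmul_eq_mul]
      _ ≤ _ := by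
          have hc : ((NY v' \ NY v).card : ℝ) ≤ (NY v').card := by
            exact_mod_cast Finset.card_le_card Finset.sdiff_subset
          have hs : ∑ i ∈ NY v' \ NY v, v i ^ 2 ≤ ∑ i ∈ SM v, v i ^ 2 :=
            Finset.sum_le_sum_of_subset_of_nonneg hsub (fun i _ _ => sq_nonneg _)
          linarith
  have hsm := sm_le hV hv hb h0
  have hcard : ((TT v).card : ℝ) = (PX v).card + (NY v).card := by
    rw [card_TT]
    push_cast
    ring
  have hx1 : ((NY v).card : ℝ) ≤ (PX v).card := by exact_mod_cast hxy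
  have hx2 : ((NY v').card : ℝ) ≤ (PX v).card := by exact_mod_cast hxy'
  have he := eps_pos
  have he2 := eps_le
  have hx0 : (0 : ℝ) ≤ (PX v).card := Nat.cast_nonneg _
  rw [hcard] at hsm
  have h3 : 7 * eps * ((PX v).card + (NY v).card) ≤ 7 / 20000000 * (2 * (PX v).card) := by
    have h4 : (PX v).card + (NY v).card ≤ 2 * ((PX v).card : ℝ) := by linarith
    have h5 : 7 * eps ≤ 7 / 20000000 := by linarith
    exact mul_le_mul h5 h4 (by positivity) (by norm_num)
  linarith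

end Pool.Agent.Helper16.MK
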