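import Pool.Agent.Helper16.MK.Defs

/-!
Project MK: elementary facts on the parameters and the coordinate sets (proved).
-/

set_option autoImplicit false

namespace Pool.Agent.Helper16.MK

open Finset

theorem eps_pos : 0 < eps := by unfold eps; positivity

theorem eps_le : eps ≤ 1 / 20000000 := by unfold eps; norm_num

theorem four_NN_eps : 4 * (NN : ℝ) * eps = 1 := by
  unfold NN eps
  norm_num

theorem om_eq : om = 5 / 4 * eps := by
  unfold om eps
  norm_num

theorem om_pos : 0 < om := by unfold om; positivity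

theorem tau_pos : 0 < tau := by unfold tau; positivity

theorem four_tau_le : 4 * tau ≤ eps / 10 := by unfold tau eps; norm_num

theorem sqrt2_lb : (1.41421356 : ℝ) < √2 := by
  rw [show (1.41421356 : ℝ) = √(1.41421356 ^ 2) by rw [Real.sqrt_sq (by norm_num)]]
  exact Real.sqrt_lt_sqrt (by norm_num) (by norm_num)

theorem sqrt2_ub : √2 < (1.41421357 : ℝ) := by
  rw [show (1.41421357 : ℝ) = √(1.41421357 ^ 2) by rw [Real.sqrt_sq (by norm_num)]]
  exact Real.sqrt_lt_sqrt (by norm_num) (by norm_num)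

theorem sqrt2_sq : √2 * √2 = 2 := Real.mul_self_sqrt (by norm_num)

theorem aa_sub : aa - √2 = √2 * eps := by unfold aa; ring

theorem aa_lb : √2 < aa := by
  have h1 := aa_sub
  have h2 : 0 < √2 * eps := mul_pos (Real.sqrt_pos.2 (by norm_num)) eps_pos
  linarith

theorem aa_ub : aa < 1.4143 := by
  have h1 := aa_sub
  have h2 : √2 * eps ≤ 1.41421357 * (1 / 20000000) :=
    mul_le_mul sqrt2_ub.le eps_le eps_pos.le (by norm_num)
  have h3 := sqrt2_ub
  norm_num at h2
  linarith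

theorem InBox.neg {ι : Type*} {v : ι → ℝ} (h : InBox v) : InBox (-v) := by
  intro i
  rw [Pi.neg_apply, abs_neg]
  exact h i

variable {ι : Type*} [Fintype ι]

theorem mem_PX {v : ι → ℝ} {i : ι} : i ∈ PX v ↔ 1 / 2 ≤ v i := by simp [PX]

theorem mem_NY {v : ι → ℝ} {i : ι} : i ∈ NY v ↔ v i ≤ -(1 / 2) := by simp [NY]

theorem mem_SM {v : ι → ℝ} {i : ι} : i ∈ SM v ↔ |v i| < 1 / 2 := by simp [SM]

theorem mem_TT {v : ι → ℝ} {i : ι} : i ∈ TT v ↔ 1 / 2 ≤ |v i| := by simp [TT]

theorem TT_eq [DecidableEq ι] (v : ι → ℝ) : TT v = PX v ∪ NY v := by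
  ext i
  rw [mem_union, mem_TT, mem_PX, mem_NY, le_abs]
  constructor
  · rintro (h | h)
    · exact Or.inl h
    · exact Or.inr (by linarith)
  · rintro (h | h)
    · exact Or.inl h
    · exact Or.inr (by linarith)

theorem disj_PX_NY (v : ι → ℝ) : Disjoint (PX v) (NY v) := by
  rw [Finset.disjoint_left]
  intro i h1 h2
  rw [mem_PX] at h1
  rw [mem_NY] at h2
  linarith

theorem disj_SM_TT (v : ι → ℝ) : Disjoint (SM v) (TT v) := by
  rw [Finset.disjoint_left]
  intro i h1 h2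
  rw [mem_SM] at h1
  rw [mem_TT] at h2
  linarith

theorem SM_union_TT [DecidableEq ι] (v : ι → ℝ) : SM v ∪ TT v = univ := by
  ext i
  simp only [mem_union, mem_SM, mem_TT, mem_univ, iff_true]
  exact lt_or_ge _ _

theorem card_TT (v : ι → ℝ) : (TT v).card = (PX v).card + (NY v).card := by
  classical
  rw [TT_eq, card_union_of_disjoint (disj_PX_NY v)]

theorem PX_neg (v : ι → ℝ) : PX (-v) = NY v := by
  ext i
  rw [mem_PX, mem_NY, Pi.neg_apply]
  constructor <;> intro h <;> linarith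

theorem NY_neg (v : ι → ℝ) : NY (-v) = PX v := by
  ext i
  rw [mem_NY, mem_PX, Pi.neg_apply]
  constructor <;> intro h <;> linarith

/-- the condition for `-v`: `∏ |1 - v_i| ≥ 1 - τ` -/
theorem Adm.neg {V : AddSubgroup (ι → ℝ)} (hV : Adm V) {v : ι → ℝ} (hv : v ∈ V) :
    1 - tau ≤ ∏ i, |1 - v i| := by
  have h := hV (-v) (V.neg_mem hv)
  have h2 : ∀ i, |(-v) i + 1| = |1 - v i| := by
    intro i
    rw [Pi.neg_apply]
    congr 1
    ring
  simpa only [h2] using h

/-- the product of the two conditions: `∏ |v_i ^ 2 - 1| ≥ (1 - τ) ^ 2` -/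
theorem Adm.sq {V : AddSubgroup (ι → ℝ)} (hV : Adm V) {v : ι → ℝ} (hv : v ∈ V) :
    (1 - tau) ^ 2 ≤ ∏ i, |v i ^ 2 - 1| := by
  have h1 := hV v hv
  have h2 := hV.neg hv
  have h0 : (0 : ℝ) ≤ 1 - tau := by unfold tau; norm_num
  have h3 : ∏ i, |v i ^ 2 - 1| = (∏ i, |v i + 1|) * ∏ i, |1 - v i| := by
    rw [← Finset.prod_mul_distrib]
    refine Finset.prod_congr rfl (fun i _ => ?_)
    rw [← abs_mul, ← abs_neg]
    congr 1
    ring
  rw [h3, pow_two]
  exact mul_le_mul h1 h2 h0 (h0.trans h1)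

end Pool.Agent.Helper16.MK
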