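import Mathlib

/-!
MK-12. Volumes of the preimages of cubes under an invertible matrix.

Proof. `S = {y | ∀ k, 0 ≤ (M y) k < a}` is the preimage of the box `∏ [0, a)` under the linear map
`M`, so `vol S = a^d / |det M|` (`MeasureTheory.Measure.addHaar_preimage_linearMap` or
`Real.map_matrix_volume_pi_eq_smul_volume_pi`; `Real.volume_pi_Ico`). For `w : ι → ℝ` with
`|w k| < a` for all `k`: `S ∩ {y | y + n ∈ S}` with `M n = w` is the preimage of the box
`∏ ([0, a) ∩ [-w k, a - w k))` of side lengths `a - |w k|`; and if some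
`|w k| ≥ a` the intersection is empty.
-/

set_option autoImplicit false

namespace Pool.Agent.Helper16.MK

open MeasureTheory

/-- the preimage of the cube `[0, a)^ι` under the matrix `M` -/
def preCube {ι : Type*} [Fintype ι] (M : Matrix ι ι ℝ) (a : ℝ) : Set (ι → ℝ) :=
  {y | ∀ k, 0 ≤ ∑ j, M k j * y j ∧ ∑ j, M k j * y j < a}

theorem measurableSet_preCube {ι : Type*} [Fintype ι] (M : Matrix ι ι ℝ) (a : ℝ) :
    MeasurableSet (preCube M a) := by
  have h : preCube M a =
      ⋂ k, ((fun y : ι → ℝ => ∑ j, M k j * y j) ⁻¹' (Set.Ico 0 a)) := by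
    ext y
    simp [preCube, Set.mem_Ico]
  rw [h]
  refine MeasurableSet.iInter fun k => ?_
  have hm : Measurable (fun y : ι → ℝ => ∑ j, M k j * y j) := by
    fun_prop
  exact hm measurableSet_Ico

private theorem volume_preBox {ι : Type*} [Fintype ι] [DecidableEq ι] (M : Matrix ι ι ℝ)
    (hM : M.det ≠ 0) (l u : ι → ℝ) (h : ∀ k, l k ≤ u k) :
    volume {y : ι → ℝ | ∀ k, l k ≤ ∑ j, M k j * y j ∧ ∑ j, M k j * y j < u k} =
      ENNReal.ofReal ((∏ k, (u k - l k)) / |M.det|) := by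
  have hset : {y : ι → ℝ | ∀ k, l k ≤ ∑ j, M k j * y j ∧ ∑ j, M k j * y j < u k} =
      (Matrix.toLin' M) ⁻¹' (Set.pi Set.univ fun k => Set.Ico (l k) (u k)) := by
    ext y
    simp [Matrix.toLin'_apply, Matrix.mulVec, dotProduct, Set.mem_pi, Set.mem_Ico]
  have hdet : LinearMap.det (Matrix.toLin' M) ≠ 0 := by
    rw [LinearMap.det_toLin']
    exact hM
  rw [hset, MeasureTheory.Measure.addHaar_preimage_linearMap volume hdet, Real.volume_pi_Ico,
    LinearMap.det_toLin', ← ENNReal.ofReal_prod_of_nonneg (fun k _ => sub_nonneg.2 (h k)),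
    ← ENNReal.ofReal_mul (abs_nonneg _), abs_inv]
  congr 1
  rw [div_eq_mul_inv, mul_comm]

theorem volume_preCube {ι : Type*} [Fintype ι] [DecidableEq ι] (M : Matrix ι ι ℝ)
    (hM : M.det ≠ 0) (a : ℝ) (ha : 0 < a) :
    volume (preCube M a) = ENNReal.ofReal (a ^ Fintype.card ι / |M.det|) := by
  have h := volume_preBox M hM (fun _ => 0) (fun _ => a) (fun _ => ha.le)
  simp only [sub_zero, Finset.prod_const, Finset.card_univ] at h
  exact h

theorem volume_preCube_inter {ι : Type*} [Fintype ι] [DecidableEq ι] (M : Matrix ι ι ℝ)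
    (hM : M.det ≠ 0) (a : ℝ) (ha : 0 < a) (n : ι → ℤ)
    (h : ∀ k, |∑ j, M k j * (n j : ℝ)| < a) :
    volume (preCube M a ∩ {y | (fun i => y i + (n i : ℝ)) ∈ preCube M a}) =
      ENNReal.ofReal ((∏ k, (a - |∑ j, M k j * (n j : ℝ)|)) / |M.det|) := by
  set w : ι → ℝ := fun k => ∑ j, M k j * (n j : ℝ) with hw
  have key := volume_preBox M hM (fun k => max 0 (-w k)) (fun k => min a (a - w k)) (by
    intro k
    have hk := abs_lt.1 (h k)
    have hk1 : -a < w k := hk.1
    have hk2 : w k < a := hk.2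
    refine max_le (le_min ha.le ?_) (le_min ?_ ?_) <;> linarith)
  have hset : preCube M a ∩ {y | (fun i => y i + (n i : ℝ)) ∈ preCube M a} =
      {y : ι → ℝ | ∀ k, max 0 (-w k) ≤ ∑ j, M k j * y j ∧
        ∑ j, M k j * y j < min a (a - w k)} := by
    ext y
    have hsum : ∀ k, ∑ j, M k j * (y j + (n j : ℝ)) = ∑ j, M k j * y j + w k := by
      intro k
      rw [hw, ← Finset.sum_add_distrib]
      exact Finset.sum_congr rfl fun j _ => by ring
    simp only [preCube, Set.mem_inter_iff, Set.mem_ofPred_eq, hsum, max_le_iff, lt_min_iff]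
    constructor
    · rintro ⟨h1, h2⟩ k
      have := h1 k
      have := h2 k
      refine ⟨⟨?_, ?_⟩, ?_, ?_⟩ <;> linarith [(h1 k).1, (h1 k).2, (h2 k).1, (h2 k).2]
    · intro h1
      refine ⟨fun k => ⟨(h1 k).1.1, (h1 k).2.1⟩, fun k => ⟨?_, ?_⟩⟩
      · linarith [(h1 k).1.2]
      · linarith [(h1 k).2.2]
  rw [hset, key]
  congr 2
  refine Finset.prod_congr rfl fun k _ => ?_
  rcases le_total 0 (w k) with hk | hk
  · rw [max_eq_left (by linarith : -w k ≤ 0), min_eq_right (by linarith : a - w k ≤ a),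
      abs_of_nonneg hk, sub_zero]
  · rw [max_eq_right (by linarith : 0 ≤ -w k), min_eq_left (by linarith : a ≤ a - w k),
      abs_of_nonpos hk]

theorem preCube_inter_empty {ι : Type*} [Fintype ι] (M : Matrix ι ι ℝ)
    (a : ℝ) (n : ι → ℤ) (h : ¬ ∀ k, |∑ j, M k j * (n j : ℝ)| < a) :
    preCube M a ∩ {y | (fun i => y i + (n i : ℝ)) ∈ preCube M a} = ∅ := by
  rw [Set.eq_empty_iff_forall_notMem]
  rintro y ⟨h1, h2⟩
  apply h
  intro k
  have hsum : ∑ j, M k j * (y j + (n j : ℝ)) =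
      ∑ j, M k j * y j + ∑ j, M k j * (n j : ℝ) := by
    rw [← Finset.sum_add_distrib]
    exact Finset.sum_congr rfl fun j _ => by ring
  have h1k := h1 k
  have h2k : 0 ≤ ∑ j, M k j * (y j + (n j : ℝ)) ∧ ∑ j, M k j * (y j + (n j : ℝ)) < a := h2 k
  rw [hsum] at h2k
  rw [abs_lt]
  constructor <;> linarith [h1k.1, h1k.2, h2k.1, h2k.2]

end Pool.Agent.Helper16.MK
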