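import Pool.Agent.Helper16.MK.Period
import Pool.Agent.Helper16.MK.Vol

/-!
MK-13. The second moment inequality for the lattice `M ℤ^ι` and the cube of side `a`.

Proof. Finiteness of `{n | ∀ k, |(M n) k| < a}`: `n = M⁻¹ (M n)`, so all `|n j|` are at most a
constant `C`, and there are finitely many integer vectors with this property. Then
`second_moment_le` for `S = preCube M a`, `volume_preCube`, `volume_preCube_inter`,
`preCube_inter_empty` (the tsum is a finite sum over `F`, `tsum_eq_sum`), in reals: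
`(a^d / |det M|)² ≤ ∑_{n ∈ F} ∏ (a - |(M n) k|) / |det M|`; multiply with `|det M|² / a^d`,
`∏ (a - |w k|) = a^d ∏ (1 - |w k|/a)`.
-/

set_option autoImplicit false

namespace Pool.Agent.Helper16.MK

open MeasureTheory

private theorem fin_aux {ι : Type*} [Fintype ι] [DecidableEq ι] (M : Matrix ι ι ℝ)
    (hM : M.det ≠ 0) (a : ℝ) :
    {n : ι → ℤ | ∀ k, |∑ j, M k j * (n j : ℝ)| < a}.Finite := by
  have hu : IsUnit M.det := isUnit_iff_ne_zero.2 hM
  set C : ι → ℤ := fun i => ⌈∑ k, |M⁻¹ i k| * a⌉ with hC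
  refine Set.Finite.subset (Set.finite_Icc (-C) C) ?_
  intro n hn
  have key : ∀ i, |(n i : ℝ)| ≤ (C i : ℝ) := by
    intro i
    have h1 : (M⁻¹.mulVec (M.mulVec fun j => (n j : ℝ))) i = (n i : ℝ) := by
      rw [Matrix.mulVec_mulVec, Matrix.nonsing_inv_mul M hu, Matrix.one_mulVec]
    have h2 : (M⁻¹.mulVec (M.mulVec fun j => (n j : ℝ))) i =
        ∑ k, M⁻¹ i k * ∑ j, M k j * (n j : ℝ) := rfl
    rw [← h1, h2]
    refine (Finset.abs_sum_le_sum_abs _ _).trans ?_
    refine le_trans (Finset.sum_le_sum fun k _ => ?_) (Int.le_ceil _)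
    rw [abs_mul]
    exact mul_le_mul_of_nonneg_left (hn k).le (abs_nonneg _)
  constructor
  · intro i
    have := (abs_le.1 (key i)).1
    rw [Pi.neg_apply]
    exact_mod_cast this
  · intro i
    have := (abs_le.1 (key i)).2
    exact_mod_cast this

theorem lattice_second_moment {ι : Type*} [Fintype ι] [DecidableEq ι] (M : Matrix ι ι ℝ)
    (hM : M.det ≠ 0) (a : ℝ) (ha : 0 < a) :
    ∃ F : Finset (ι → ℤ), (∀ n, n ∈ F ↔ ∀ k, |∑ j, M k j * (n j : ℝ)| < a) ∧
      a ^ Fintype.card ι ≤
        |M.det| * ∑ n ∈ F, ∏ k, (1 - |∑ j, M k j * (n j : ℝ)| / a) := by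
  classical
  have hfin := fin_aux M hM a
  refine ⟨hfin.toFinset, fun n => by simp, ?_⟩
  set F := hfin.toFinset with hF
  have hmem : ∀ n, n ∈ F ↔ ∀ k, |∑ j, M k j * (n j : ℝ)| < a := fun n => by simp [hF]
  have hD : 0 < |M.det| := abs_pos.2 hM
  have h0 := second_moment_le (preCube M a) (measurableSet_preCube M a)
  rw [tsum_eq_sum (s := F)] at h0
  · rw [volume_preCube M hM a ha] at h0
    have h1 : ∑ n ∈ F, volume (preCube M a ∩ {y | (fun i => y i + (n i : ℝ)) ∈ preCube M a}) =
        ENNReal.ofReal (∑ n ∈ F, (∏ k, (a - |∑ j, M k j * (n j : ℝ)|)) / |M.det|) := by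
      rw [ENNReal.ofReal_sum_of_nonneg]
      · exact Finset.sum_congr rfl fun n hn => volume_preCube_inter M hM a ha n ((hmem n).1 hn)
      · intro n hn
        exact div_nonneg (Finset.prod_nonneg fun k _ => by
          linarith [(hmem n).1 hn k]) hD.le
    rw [h1, ← ENNReal.ofReal_pow (by positivity), ENNReal.ofReal_le_ofReal_iff] at h0
    · have h2 : ∀ n : ι → ℤ, ∏ k, (a - |∑ j, M k j * (n j : ℝ)|) =
          a ^ Fintype.card ι * ∏ k, (1 - |∑ j, M k j * (n j : ℝ)| / a) := by
        intro n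
        rw [← Finset.card_univ, ← Finset.prod_const, ← Finset.prod_mul_distrib]
        refine Finset.prod_congr rfl fun k _ => ?_
        field_simp
      simp only [h2] at h0
      rw [← Finset.sum_div, ← Finset.mul_sum] at h0
      set T := ∑ n ∈ F, ∏ k, (1 - |∑ j, M k j * (n j : ℝ)| / a)
      set A := a ^ Fintype.card ι with hA
      have hAp : 0 < A := by positivity
      rw [div_pow, div_le_div_iff₀ (by positivity) hD] at h0
      have h3 : A * |M.det| * A ≤ A * |M.det| * (|M.det| * T) := by nlinarith [h0]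
      exact le_of_mul_le_mul_left h3 (by positivity)
    · refine Finset.sum_nonneg fun n hn => ?_
      exact div_nonneg (Finset.prod_nonneg fun k _ => by
          linarith [(hmem n).1 hn k]) hD.le
  · intro n hn
    rw [hmem] at hn
    rw [preCube_inter_empty M a n hn, measure_empty]

end Pool.Agent.Helper16.MK
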