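import Mathlib

/-!
MK-09. A family of sets of size at most `x` with large pairwise intersections has small weight.

Proof. If `B` is empty the left side is `0`. Let `Y₀ ∈ B` and `l = (x + 5) / 6` (the least `l` with
`x ≤ 6 l`). Every `Y ∈ B` has `|Y ∩ Y₀| ≥ l`, so it contains a set `Z ⊆ Y₀` with `|Z| = l`
(`Finset.exists_subset_card_eq`). Hence, with `t = (1/4)^13`,
`∑_{Y ∈ B} t^|Y| ≤ ∑_{Z ∈ powersetCard l Y₀} ∑_{Y ⊇ Z} t^|Y|` and
`∑_{Y ⊇ Z} t^|Y| = t^|Z| (1 + t)^(d - |Z|) ≤ t^l (1 + t)^d` (or bound it by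
`t^l ∑_{W} t^|W| = t^l (1 + t)^d` through the injection `Y ↦ Y \ Z`; `Fintype.sum_pow_mul_eq_add_pow`).
The number of `Z` is at most `2^|Y₀| ≤ 2^x` and
`t^l = (1/4)^(13 l) ≤ (1/4)^(2 x)` because `13 l ≥ 2 x`.
-/

set_option autoImplicit false

namespace Pool.Agent.Helper16.MK

open Finset

private theorem sum_pow_card' {ι : Type*} [Fintype ι] [DecidableEq ι] (t : ℝ) :
    ∑ X : Finset ι, t ^ X.card = (1 + t) ^ Fintype.card ι := by
  have h := Fintype.sum_pow_mul_eq_add_pow ι t 1
  simp only [one_pow, mul_one] at h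
  rw [h, add_comm]

private theorem sup_le {ι : Type*} [Fintype ι] [DecidableEq ι] (Z : Finset ι) (t : ℝ)
    (ht : 0 ≤ t) :
    ∑ Y ∈ (univ : Finset (Finset ι)).filter (fun Y => Z ⊆ Y), t ^ Y.card ≤
      t ^ Z.card * (1 + t) ^ Fintype.card ι := by
  have hinj : Set.InjOn (fun Y : Finset ι => Y \ Z)
      (((univ : Finset (Finset ι)).filter (fun Y => Z ⊆ Y) : Finset (Finset ι)) :
        Set (Finset ι)) := by
    intro Y hY Y' hY' h
    simp only [coe_filter, mem_univ, true_and, Set.mem_ofPred_eq] at hY hY'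
    simp only at h
    rw [← Finset.sdiff_union_of_subset hY, ← Finset.sdiff_union_of_subset hY', h]
  calc ∑ Y ∈ (univ : Finset (Finset ι)).filter (fun Y => Z ⊆ Y), t ^ Y.card
      = ∑ Y ∈ (univ : Finset (Finset ι)).filter (fun Y => Z ⊆ Y),
          t ^ Z.card * t ^ (Y \ Z).card := by
        refine Finset.sum_congr rfl (fun Y hY => ?_)
        rw [mem_filter] at hY
        rw [← pow_add]
        congr 1
        have := Finset.card_sdiff_add_card_eq_card hY.2
        omega
    _ = t ^ Z.card * ∑ W ∈ ((univ : Finset (Finset ι)).filter (fun Y => Z ⊆ Y)).image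
          (fun Y => Y \ Z), t ^ W.card := by
        rw [Finset.sum_image hinj, Finset.mul_sum]
    _ ≤ t ^ Z.card * ∑ W : Finset ι, t ^ W.card := by
        apply mul_le_mul_of_nonneg_left _ (by positivity)
        exact Finset.sum_le_sum_of_subset_of_nonneg (Finset.subset_univ _)
          (fun _ _ _ => by positivity)
    _ = _ := by rw [sum_pow_card']

theorem fibre_le {ι : Type*} [Fintype ι] [DecidableEq ι] (x : ℕ) (B : Finset (Finset ι))
    (hB : ∀ Y ∈ B, Y.card ≤ x) (hpair : ∀ Y ∈ B, ∀ Y' ∈ B, x ≤ 6 * (Y ∩ Y').card) :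
    ∑ Y ∈ B, ((1 / 4 : ℝ) ^ 13) ^ Y.card ≤
      (2 * (1 / 4) ^ 2) ^ x * (1 + (1 / 4) ^ 13) ^ Fintype.card ι := by
  classical
  rcases B.eq_empty_or_nonempty with rfl | ⟨Y₀, hY₀⟩
  · rw [Finset.sum_empty]
    positivity
  · set t : ℝ := (1 / 4) ^ 13 with ht
    have ht0 : 0 ≤ t := by positivity
    set l := (x + 5) / 6 with hl
    have hl1 : x ≤ 6 * l := by omega
    have h1 : ∀ Y ∈ B, t ^ Y.card ≤
        ∑ Z ∈ Y₀.powersetCard l, if Z ⊆ Y then t ^ Y.card else 0 := by
      intro Y hY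
      have h2 := hpair Y hY Y₀ hY₀
      have h3 : l ≤ (Y ∩ Y₀).card := by omega
      obtain ⟨Z, hZ, hZc⟩ := Finset.exists_subset_card_eq h3
      have h4 : Z ∈ Y₀.powersetCard l := mem_powersetCard.2 ⟨hZ.trans inter_subset_right, hZc⟩
      have h5 := Finset.single_le_sum (f := fun Z => if Z ⊆ Y then t ^ Y.card else 0)
        (fun Z _ => by split_ifs <;> positivity) h4
      simp only [hZ.trans inter_subset_left, if_true] at h5
      exact h5
    calc ∑ Y ∈ B, t ^ Y.card
        ≤ ∑ Y ∈ B, ∑ Z ∈ Y₀.powersetCard l, if Z ⊆ Y then t ^ Y.card else 0 :=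
          Finset.sum_le_sum h1
      _ ≤ ∑ Y : Finset ι, ∑ Z ∈ Y₀.powersetCard l, if Z ⊆ Y then t ^ Y.card else 0 :=
          Finset.sum_le_sum_of_subset_of_nonneg (Finset.subset_univ _)
            (fun _ _ _ => Finset.sum_nonneg (fun _ _ => by split_ifs <;> positivity))
      _ = ∑ Z ∈ Y₀.powersetCard l,
            ∑ Y ∈ (univ : Finset (Finset ι)).filter (fun Y => Z ⊆ Y), t ^ Y.card := by
          rw [Finset.sum_comm]
          refine Finset.sum_congr rfl (fun Z _ => ?_)
          rw [Finset.sum_filter]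
      _ ≤ ∑ Z ∈ Y₀.powersetCard l, t ^ l * (1 + t) ^ Fintype.card ι := by
          refine Finset.sum_le_sum (fun Z hZ => ?_)
          have h4 := sup_le Z t ht0
          rw [(mem_powersetCard.1 hZ).2] at h4
          exact h4
      _ = ((Y₀.powersetCard l).card : ℝ) * (t ^ l * (1 + t) ^ Fintype.card ι) := by
          rw [Finset.sum_const, nsmul_eq_mul]
      _ ≤ 2 ^ x * (t ^ l * (1 + t) ^ Fintype.card ι) := by
          apply mul_le_mul_of_nonneg_right _ (by positivity)
          have h5 : (Y₀.powersetCard l).card ≤ 2 ^ x := by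
            calc (Y₀.powersetCard l).card = Y₀.card.choose l := Finset.card_powersetCard _ _
              _ ≤ 2 ^ Y₀.card := Nat.choose_le_two_pow _ _
              _ ≤ 2 ^ x := Nat.pow_le_pow_right (by norm_num) (hB Y₀ hY₀)
          exact_mod_cast h5
      _ ≤ (2 * (1 / 4) ^ 2) ^ x * (1 + t) ^ Fintype.card ι := by
          rw [← mul_assoc]
          apply mul_le_mul_of_nonneg_right _ (by positivity)
          rw [mul_pow, ht, ← pow_mul, ← pow_mul]
          apply mul_le_mul_of_nonneg_left _ (by positivity)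
          exact pow_le_pow_of_le_one (by norm_num) (by norm_num) (by omega)

end Pool.Agent.Helper16.MK
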