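import Pool.Agent.Helper16.MK.Basic
import Pool.Agent.Helper16.MK.Fibre

/-!
MK-10. The weighted number of patterns.

Proof. `ω = h^12`, `h = 1/4`. By symmetry (exchange of the two components) the sum is at most
`2 S`, `S` = the sum over the pairs `(X, Y) ∈ 𝒜` with `|Y| ≤ |X|`. For such a pair
`ω^(|X| + |Y|) = h^(12|X|) h^(12|Y|) ≤ h^(11 |X|) (h^13)^|Y|` (because
`h^|X| ≤ h^|Y|`). For fixed `X` the set `B = {Y | (X, Y) ∈ 𝒜, |Y| ≤ |X|}` satisfies the
hypotheses of `fibre_le` with `x = |X|`, so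
`S ≤ ∑_X h^(11|X|) (2 h^2)^|X| (1 + h^13)^d = (1 + 2 h^13)^d (1 + h^13)^d ≤ exp (3 h^13 d)`
(`Fintype.sum_pow_mul_eq_add_pow`, `1 + t ≤ exp t`).
-/

set_option autoImplicit false

namespace Pool.Agent.Helper16.MK

open Finset

private theorem sum_pow_card {ι : Type*} [Fintype ι] [DecidableEq ι] (t : ℝ) :
    ∑ X : Finset ι, t ^ X.card = (1 + t) ^ Fintype.card ι := by
  have h := Fintype.sum_pow_mul_eq_add_pow ι t 1
  simp only [one_pow, mul_one] at h
  rw [h, add_comm]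

theorem count_le {ι : Type*} [Fintype ι] [DecidableEq ι] (𝒜 : Finset (Finset ι × Finset ι))
    (hsymm : ∀ p ∈ 𝒜, (p.2, p.1) ∈ 𝒜)
    (hpair : ∀ X Y Y' : Finset ι, (X, Y) ∈ 𝒜 → (X, Y') ∈ 𝒜 → Y.card ≤ X.card →
      Y'.card ≤ X.card → X.card ≤ 6 * (Y ∩ Y').card) :
    ∑ p ∈ 𝒜, om ^ (p.1.card + p.2.card) ≤
      2 * Real.exp (3 * (1 / 4) ^ 13 * (Fintype.card ι : ℝ)) := by
  classical
  set d := Fintype.card ι with hd
  have hom := om_pos
  set 𝒮 := 𝒜.filter (fun p => p.2.card ≤ p.1.card) with h𝒮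
  -- the symmetric half
  have h1 : ∑ p ∈ 𝒜.filter (fun p => ¬ p.2.card ≤ p.1.card), om ^ (p.1.card + p.2.card) ≤
      ∑ p ∈ 𝒮, om ^ (p.1.card + p.2.card) := by
    have hinj : Set.InjOn (fun p : Finset ι × Finset ι => (p.2, p.1))
        ((𝒜.filter (fun p => ¬ p.2.card ≤ p.1.card) : Finset (Finset ι × Finset ι)) :
          Set (Finset ι × Finset ι)) := by
      intro p _ q _ hpq
      simp only [Prod.mk.injEq] at hpq
      exact Prod.ext hpq.2 hpq.1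
    calc ∑ p ∈ 𝒜.filter (fun p => ¬ p.2.card ≤ p.1.card), om ^ (p.1.card + p.2.card)
        = ∑ p ∈ (𝒜.filter (fun p => ¬ p.2.card ≤ p.1.card)).image (fun p => (p.2, p.1)),
            om ^ (p.1.card + p.2.card) := by
          rw [Finset.sum_image hinj]
          refine Finset.sum_congr rfl (fun p _ => ?_)
          rw [Nat.add_comm]
      _ ≤ _ := by
          refine Finset.sum_le_sum_of_subset_of_nonneg ?_ (fun _ _ _ => by positivity)
          intro q hq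
          obtain ⟨p, hp, rfl⟩ := Finset.mem_image.1 hq
          rw [Finset.mem_filter] at hp
          rw [h𝒮, Finset.mem_filter]
          exact ⟨hsymm p hp.1, (not_le.1 hp.2).le⟩
  have h2 : ∑ p ∈ 𝒜, om ^ (p.1.card + p.2.card) ≤ 2 * ∑ p ∈ 𝒮, om ^ (p.1.card + p.2.card) := by
    rw [← Finset.sum_filter_add_sum_filter_not 𝒜 (fun p => p.2.card ≤ p.1.card)]
    rw [two_mul]
    exact add_le_add_right h1 _
  -- the weight of a pair
  have h3 : ∀ p ∈ 𝒮, om ^ (p.1.card + p.2.card) ≤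
      ((1 / 4 : ℝ) ^ 11) ^ p.1.card * ((1 / 4 : ℝ) ^ 13) ^ p.2.card := by
    intro p hp
    rw [h𝒮, Finset.mem_filter] at hp
    have e1 : om ^ (p.1.card + p.2.card) =
        ((1 / 4 : ℝ) ^ 11) ^ p.1.card * ((1 / 4 : ℝ) ^ 12) ^ p.2.card * (1 / 4) ^ p.1.card := by
      unfold om
      rw [pow_add, ← pow_mul, ← pow_mul, ← pow_mul]
      have : 12 * p.1.card = 11 * p.1.card + p.1.card := by ring
      rw [this, pow_add]
      ring
    have e2 : ((1 / 4 : ℝ) ^ 13) ^ p.2.card = ((1 / 4 : ℝ) ^ 12) ^ p.2.card * (1 / 4) ^ p.2.card := by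
      rw [← pow_mul, ← pow_mul, ← pow_add]
      congr 1
      ring
    rw [e1, e2, mul_assoc]
    apply mul_le_mul_of_nonneg_left _ (by positivity)
    apply mul_le_mul_of_nonneg_left _ (by positivity)
    exact pow_le_pow_of_le_one (by norm_num) (by norm_num) hp.2
  -- sum over the fibres
  have h4 : ∑ p ∈ 𝒮, ((1 / 4 : ℝ) ^ 11) ^ p.1.card * ((1 / 4 : ℝ) ^ 13) ^ p.2.card ≤
      ∑ X : Finset ι, ((1 / 4 : ℝ) ^ 11) ^ X.card *
        ((2 * (1 / 4) ^ 2) ^ X.card * (1 + (1 / 4) ^ 13) ^ d) := by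
    set B : Finset ι → Finset (Finset ι) := fun X =>
      Finset.univ.filter (fun Y => (X, Y) ∈ 𝒮) with hB
    have e1 : ∑ p ∈ 𝒮, ((1 / 4 : ℝ) ^ 11) ^ p.1.card * ((1 / 4 : ℝ) ^ 13) ^ p.2.card =
        ∑ X : Finset ι, ∑ Y ∈ B X,
          ((1 / 4 : ℝ) ^ 11) ^ X.card * ((1 / 4 : ℝ) ^ 13) ^ Y.card := by
      have e2 : ∑ p ∈ 𝒮, ((1 / 4 : ℝ) ^ 11) ^ p.1.card * ((1 / 4 : ℝ) ^ 13) ^ p.2.card =
          ∑ p : Finset ι × Finset ι, if p ∈ 𝒮 then
            ((1 / 4 : ℝ) ^ 11) ^ p.1.card * ((1 / 4 : ℝ) ^ 13) ^ p.2.card else 0 := by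
        rw [← Finset.sum_filter]
        congr 1
        ext p
        simp
      rw [e2, Fintype.sum_prod_type]
      refine Finset.sum_congr rfl (fun X _ => ?_)
      rw [hB, Finset.sum_filter]
    rw [e1]
    refine Finset.sum_le_sum (fun X _ => ?_)
    rw [← Finset.mul_sum]
    apply mul_le_mul_of_nonneg_left _ (by positivity)
    apply fibre_le X.card (B X)
    · intro Y hY
      rw [hB, Finset.mem_filter, h𝒮, Finset.mem_filter] at hY
      exact hY.2.2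
    · intro Y hY Y' hY'
      rw [hB, Finset.mem_filter, h𝒮, Finset.mem_filter] at hY hY'
      exact hpair X Y Y' hY.2.1 hY'.2.1 hY.2.2 hY'.2.2
  have h5 : ∑ X : Finset ι, ((1 / 4 : ℝ) ^ 11) ^ X.card *
        ((2 * (1 / 4) ^ 2) ^ X.card * (1 + (1 / 4) ^ 13) ^ d) =
      (1 + 2 * (1 / 4) ^ 13) ^ d * (1 + (1 / 4) ^ 13) ^ d := by
    rw [hd, ← sum_pow_card (ι := ι) (2 * (1 / 4 : ℝ) ^ 13), Finset.sum_mul]
    refine Finset.sum_congr rfl (fun X _ => ?_)
    rw [← mul_assoc, ← mul_pow]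
    congr 2
    norm_num
  have h6 : (1 + 2 * (1 / 4 : ℝ) ^ 13) ^ d * (1 + (1 / 4) ^ 13) ^ d ≤
      Real.exp (3 * (1 / 4) ^ 13 * d) := by
    have e1 : Real.exp (3 * (1 / 4) ^ 13 * d) =
        Real.exp (2 * (1 / 4) ^ 13) ^ d * Real.exp ((1 / 4) ^ 13) ^ d := by
      rw [← Real.exp_nat_mul, ← Real.exp_nat_mul, ← Real.exp_add]
      congr 1
      ring
    rw [e1]
    have e2 : (1 : ℝ) + 2 * (1 / 4) ^ 13 ≤ Real.exp (2 * (1 / 4) ^ 13) := by
      rw [add_comm]; exact Real.add_one_le_exp _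
    have e3 : (1 : ℝ) + (1 / 4) ^ 13 ≤ Real.exp ((1 / 4) ^ 13) := by
      rw [add_comm]; exact Real.add_one_le_exp _
    exact mul_le_mul (pow_le_pow_left₀ (by positivity) e2 d)
      (pow_le_pow_left₀ (by positivity) e3 d) (by positivity) (by positivity)
  refine h2.trans ?_
  apply mul_le_mul_of_nonneg_left _ (by norm_num)
  exact (Finset.sum_le_sum h3).trans (h4.trans (h5.le.trans h6))

end Pool.Agent.Helper16.MK
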