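import Pool.Agent.Helper16.MK.Basic

/-!
MK-03. Uniqueness of the vector with a given pattern.

Proof. `eq_zero_of_small`: let `v ∈ V`, `|v i| < 1` for all `i`, and suppose `v ≠ 0`; let
`m = max |v i| ∈ (0, 1)`, attained at `i₀`. There is a natural number `k ≥ 1` with
`1/2 ≤ k m < 1` (if `m ≥ 1/2` take `k = 1`; otherwise the least `k` with `k m ≥ 1/2`, then
`k m < 1/2 + m < 1`). `k • v ∈ V` has all coordinates of absolute value at most `k m < 1`, so
`|(k v i)² - 1| ≤ 1` and for `i₀` it is at most `3/4`; `Adm.sq` gives `(1 - τ)² ≤ 3/4`, false.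
`eq_of_pattern`: apply it to `v - w`: on `PX v = PX w` and on `NY v = NY w` both coordinates lie in
`[1/2, a)` or in `(-a, -1/2]`, `a - 1/2 < 1`; elsewhere both have absolute value less than `1/2`.
`one_le_card`: if `TT v` is empty then `|v i| < 1/2` for all `i`.
-/

set_option autoImplicit false

namespace Pool.Agent.Helper16.MK

open Finset

variable {ι : Type*} [Fintype ι]

theorem eq_zero_of_small {V : AddSubgroup (ι → ℝ)} (hV : Adm V) {v : ι → ℝ} (hv : v ∈ V)
    (h : ∀ i, |v i| < 1) : v = 0 := by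
  classical
  by_contra hne
  obtain ⟨j, hj⟩ : ∃ j, v j ≠ 0 := by
    by_contra hcon
    push Not at hcon
    exact hne (funext hcon)
  obtain ⟨i₀, -, hi₀⟩ := Finset.exists_max_image (univ : Finset ι) (fun i => |v i|)
    ⟨j, Finset.mem_univ j⟩
  set m : ℝ := |v i₀| with hm
  have hm0 : 0 < m := lt_of_lt_of_le (abs_pos.mpr hj) (hi₀ j (Finset.mem_univ j))
  have hm1 : m < 1 := h i₀
  obtain ⟨k, hk1, hk2⟩ : ∃ k : ℕ, 1 / 2 ≤ (k : ℝ) * m ∧ (k : ℝ) * m < 1 := by
    by_cases hh : 1 / 2 ≤ m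
    · exact ⟨1, by simpa using hh, by simpa using hm1⟩
    · push Not at hh
      refine ⟨⌈1 / (2 * m)⌉₊, ?_, ?_⟩
      · have h1 : 1 / (2 * m) ≤ (⌈1 / (2 * m)⌉₊ : ℝ) := Nat.le_ceil _
        calc 1 / 2 = 1 / (2 * m) * m := by field_simp
          _ ≤ (⌈1 / (2 * m)⌉₊ : ℝ) * m := mul_le_mul_of_nonneg_right h1 hm0.le
      · have h1 : (⌈1 / (2 * m)⌉₊ : ℝ) < 1 / (2 * m) + 1 := Nat.ceil_lt_add_one (by positivity)
        calc (⌈1 / (2 * m)⌉₊ : ℝ) * m < (1 / (2 * m) + 1) * m := mul_lt_mul_of_pos_right h1 hm0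
          _ = 1 / 2 + m := by field_simp
          _ < 1 := by linarith
  have hkv : k • v ∈ V := V.nsmul_mem hv k
  have h3 := hV.sq hkv
  have hval : ∀ i, |(k • v) i| = (k : ℝ) * |v i| := by
    intro i
    rw [Pi.smul_apply, nsmul_eq_mul, abs_mul, Nat.abs_cast]
  have hle1 : ∀ i, |(k • v) i| < 1 := by
    intro i
    rw [hval]
    exact lt_of_le_of_lt (mul_le_mul_of_nonneg_left (hi₀ i (Finset.mem_univ i))
      (Nat.cast_nonneg k)) hk2
  have hf : ∀ i, |(k • v) i ^ 2 - 1| = 1 - |(k • v) i| ^ 2 := by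
    intro i
    have h4 : |(k • v) i| ^ 2 ≤ 1 := by
      apply pow_le_one₀ (abs_nonneg _) (hle1 i).le
    rw [← sq_abs ((k • v) i), abs_sub_comm, abs_of_nonneg (by linarith)]
  have h5 : ∏ i, |(k • v) i ^ 2 - 1| ≤ 3 / 4 := by
    rw [← Finset.mul_prod_erase univ _ (Finset.mem_univ i₀)]
    have h6 : |(k • v) i₀ ^ 2 - 1| ≤ 3 / 4 := by
      rw [hf, hval]
      have h7 : (1 / 2 : ℝ) ^ 2 ≤ ((k : ℝ) * |v i₀|) ^ 2 := pow_le_pow_left₀ (by norm_num) hk1 2
      linarith
    have h8 : ∏ i ∈ univ.erase i₀, |(k • v) i ^ 2 - 1| ≤ 1 := by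
      apply Finset.prod_le_one
      · intro i _
        positivity
      · intro i _
        rw [hf]
        have := sq_nonneg (|(k • v) i|)
        linarith
    calc |(k • v) i₀ ^ 2 - 1| * ∏ i ∈ univ.erase i₀, |(k • v) i ^ 2 - 1|
        ≤ 3 / 4 * 1 := mul_le_mul h6 h8 (Finset.prod_nonneg (fun i _ => abs_nonneg _)) (by norm_num)
      _ = 3 / 4 := by norm_num
  have h9 : (1 - tau) ^ 2 ≤ 3 / 4 := h3.trans h5
  have h10 : (3 / 4 : ℝ) < (1 - tau) ^ 2 := by
    unfold tau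
    norm_num
  linarith

theorem eq_of_pattern {V : AddSubgroup (ι → ℝ)} (hV : Adm V) {v w : ι → ℝ} (hv : v ∈ V)
    (hw : w ∈ V) (bv : InBox v) (bw : InBox w) (h1 : PX v = PX w) (h2 : NY v = NY w) : v = w := by
  have h3 : v - w = 0 := by
    apply eq_zero_of_small hV (V.sub_mem hv hw)
    intro i
    rw [Pi.sub_apply, abs_lt]
    have ha := aa_ub
    have hvi := abs_lt.mp (bv i)
    have hwi := abs_lt.mp (bw i)
    by_cases hP : i ∈ PX v
    · have hP' : i ∈ PX w := h1 ▸ hP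
      rw [mem_PX] at hP hP'
      constructor <;> linarith [hvi.1, hvi.2, hwi.1, hwi.2]
    · by_cases hN : i ∈ NY v
      · have hN' : i ∈ NY w := h2 ▸ hN
        rw [mem_NY] at hN hN'
        constructor <;> linarith [hvi.1, hvi.2, hwi.1, hwi.2]
      · have hP' : i ∉ PX w := h1 ▸ hP
        have hN' : i ∉ NY w := h2 ▸ hN
        rw [mem_PX, not_le] at hP hP'
        rw [mem_NY, not_le] at hN hN'
        constructor <;> linarith
  exact sub_eq_zero.mp h3

theorem one_le_card {V : AddSubgroup (ι → ℝ)} (hV : Adm V) {v : ι → ℝ} (hv : v ∈ V)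
    (h0 : v ≠ 0) : 1 ≤ (TT v).card := by
  rw [Nat.one_le_iff_ne_zero]
  intro hc
  apply h0
  apply eq_zero_of_small hV hv
  intro i
  have h1 : i ∉ TT v := by
    rw [Finset.card_eq_zero.mp hc]
    exact Finset.notMem_empty i
  rw [mem_TT, not_le] at h1
  linarith

end Pool.Agent.Helper16.MK
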