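import Pool.Agent.Helper16.MK.Kern
import Pool.Agent.Helper16.MK.Uniq

/-!
MK-05. The weight of a vector of `V` in the cube is at most `ω ^ r`, `r = |TT v|`.

Proof. If `v = 0` both sides are `1` (`TT 0` is empty). Otherwise `r ≥ 1`. All factors
`1 - |v i|/a` lie in `(0, 1]`. By `Adm.sq`,
`(1 - τ)^(2N) ∏ (1 - |v i|/a) ≤ ∏ ((1 - |v i|/a) |v i² - 1|^N) ≤ (1.18 ε)^r`: the factors with
`i ∈ TT v` are at most `1.18 ε` (`kern_le` with `b = |v i|`, `sq_abs`), the others at most `1`. By
Bernoulli `(1 - τ)^(2N) ≥ 1 - 2 N τ ≥ 98/100` and `1.18 / 0.98 < 1.25`, so (as `r ≥ 1`)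
`∏ (1 - |v i|/a) ≤ (1.18 ε)^r / 0.98 ≤ (1.25 ε)^r = ω^r` (`om_eq`).
-/

set_option autoImplicit false

namespace Pool.Agent.Helper16.MK

open Finset

variable {ι : Type*} [Fintype ι]

private lemma two_NN_tau : 2 * (NN : ℝ) * tau ≤ 2 / 100 := by
  unfold NN tau
  norm_num

private lemma bern : (98 / 100 : ℝ) ≤ (1 - tau) ^ (2 * NN) := by
  have h1 := one_add_mul_le_pow (a := -tau) (by unfold tau; norm_num) (2 * NN)
  have h2 : (1 : ℝ) + -tau = 1 - tau := by ring
  rw [h2] at h1
  have h3 := two_NN_tau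
  have h4 : ((2 * NN : ℕ) : ℝ) = 2 * (NN : ℝ) := by
    rw [Nat.cast_mul, Nat.cast_ofNat]
  rw [h4] at h1
  linarith

theorem kernel_le {V : AddSubgroup (ι → ℝ)} (hV : Adm V) {v : ι → ℝ} (hv : v ∈ V)
    (hb : InBox v) : ∏ i, (1 - |v i| / aa) ≤ om ^ (TT v).card := by
  classical
  have haa : 0 < aa := lt_trans (lt_trans (by norm_num) sqrt2_lb) aa_lb
  by_cases hv0 : v = 0
  · have h1 : TT v = ∅ := by
      rw [Finset.eq_empty_iff_forall_notMem]
      intro i hi
      rw [mem_TT, hv0, Pi.zero_apply, abs_zero] at hi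
      norm_num at hi
    rw [h1, Finset.card_empty, pow_zero, hv0]
    simp
  · have hr : 1 ≤ (TT v).card := one_le_card hV hv hv0
    have hpos : ∀ i, 0 < 1 - |v i| / aa := by
      intro i
      have := (div_lt_one haa).mpr (hb i)
      linarith
    have hle1 : ∀ i, 1 - |v i| / aa ≤ 1 := by
      intro i
      have : 0 ≤ |v i| / aa := div_nonneg (abs_nonneg _) haa.le
      linarith
    have hP0 : 0 ≤ ∏ i, (1 - |v i| / aa) := Finset.prod_nonneg (fun i _ => (hpos i).le)
    have h1 : (1 - tau) ^ (2 * NN) ≤ ∏ i, |v i ^ 2 - 1| ^ NN := by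
      rw [Finset.prod_pow, pow_mul]
      exact pow_le_pow_left₀ (sq_nonneg _) (hV.sq hv) NN
    have h2 : (1 - tau) ^ (2 * NN) * ∏ i, (1 - |v i| / aa) ≤ (118 / 100 * eps) ^ (TT v).card := by
      calc (1 - tau) ^ (2 * NN) * ∏ i, (1 - |v i| / aa)
          ≤ (∏ i, |v i ^ 2 - 1| ^ NN) * ∏ i, (1 - |v i| / aa) :=
            mul_le_mul_of_nonneg_right h1 hP0
        _ = ∏ i, ((1 - |v i| / aa) * |v i ^ 2 - 1| ^ NN) := by
            rw [← Finset.prod_mul_distrib]
            apply Finset.prod_congr rfl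
            intro i _
            rw [mul_comm]
        _ ≤ ∏ i, (if i ∈ TT v then (118 / 100 * eps) else 1) := by
            apply Finset.prod_le_prod
            · intro i _
              exact mul_nonneg (hpos i).le (pow_nonneg (abs_nonneg _) _)
            · intro i _
              by_cases hi : i ∈ TT v
              · rw [if_pos hi]
                have h3 := kern_le (mem_TT.mp hi) (hb i)
                rwa [sq_abs] at h3
              · rw [if_neg hi]
                rw [mem_TT, not_le] at hi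
                have h4 : |v i ^ 2 - 1| ≤ 1 := by
                  have h5 : |v i| ^ 2 ≤ 1 := pow_le_one₀ (abs_nonneg _) (by linarith)
                  have h6 := sq_nonneg (|v i|)
                  rw [← sq_abs (v i), abs_le]
                  constructor <;> linarith
                calc (1 - |v i| / aa) * |v i ^ 2 - 1| ^ NN ≤ 1 * 1 :=
                      mul_le_mul (hle1 i) (pow_le_one₀ (abs_nonneg _) h4)
                        (pow_nonneg (abs_nonneg _) _) (by norm_num)
                  _ = 1 := by norm_num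
        _ = (118 / 100 * eps) ^ (TT v).card := by
            rw [Finset.prod_ite_mem, Finset.univ_inter, Finset.prod_const]
    have h3 : (118 / 100 * eps) ^ (TT v).card ≤ 118 / 125 * om ^ (TT v).card := by
      have h4 : (118 / 100 * eps) = 118 / 125 * om := by rw [om_eq]; ring
      rw [h4, mul_pow]
      apply mul_le_mul_of_nonneg_right _ (pow_nonneg om_pos.le _)
      exact pow_le_of_le_one (by norm_num) (by norm_num) (by omega)
    have h5 : 98 / 100 * ∏ i, (1 - |v i| / aa) ≤ 118 / 125 * om ^ (TT v).card :=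
      (mul_le_mul_of_nonneg_right bern hP0).trans (h2.trans h3)
    have h6 : 0 ≤ om ^ (TT v).card := pow_nonneg om_pos.le _
    linarith

end Pool.Agent.Helper16.MK
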