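import Pool.Agent.Helper16.MK.PairProd

/-!
MK-08. The pair lemma: two vectors of `V` in the cube with the same set `PX` of large positive
coordinates and at most as many large negative ones have many large negative coordinates in common.

Proof. If `x = |PX v| = 0` trivial. So `x ≥ 1`, hence `v, v' ≠ 0`. Let `y = |NY v|`, `y' = |NY v'|`,
`q = |NY v ∩ NY v'|` and suppose `6 q < x`. `v + v' ∈ V`, so
`1 - τ ≤ ∏ |v i + v' i + 1|`; multiply `pair_prod_le` with `balance` for `v` and for `v'`: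
`(1 - τ)^3 ≤ [(√2-1)^x (√2+1)^y] [(√2-1)^x (√2+1)^y'] (1+2√2)^x (√2-1)^(y-q) (√2-1)^(y'-q) (2√2-1)^q
  exp ((96/10000 + 219 ε + 218 ε) x)`
(`|NY v \ NY v'| = y - q`; cancel the exponentials of the sums of the small coordinates). As
`(√2-1)(√2+1) = 1`, `(√2+1)^y (√2-1)^(y-q) = (√2+1)^q`. And `(√2-1)² (1+2√2) = 4√2 - 5 =: A`,
`(√2+1)² (2√2-1) = 4√2 + 5 =: B`, `96/10000 + 437 ε ≤ 1/100`. So `(1-τ)^3 ≤ A^x B^q exp (x/100)`. Sixth
power: `(1-τ)^18 ≤ A^(6x) B^(6q) exp (6x/100) ≤ (A^6 B exp (6/100))^x` (`B ≥ 1`, `6 q ≤ x`), and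
`A B = 7`, so `A^6 B exp (6/100) = 7 A^5 exp (6/100) ≤ 92/100` (`key_num`), a contradiction to
`tau_pow` since `x ≥ 1`.
-/

set_option autoImplicit false

namespace Pool.Agent.Helper16.MK

open Finset

variable {ι : Type*} [Fintype ι]

private theorem alg_A : (√2 - 1) ^ 2 * (1 + 2 * √2) = 4 * √2 - 5 := by
  have h := sqrt2_sq
  nlinarith [h]

private theorem alg_B : (√2 + 1) ^ 2 * (2 * √2 - 1) = 4 * √2 + 5 := by
  have h := sqrt2_sq
  nlinarith [h]

private theorem alg_one : (√2 + 1) * (√2 - 1) = 1 := by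
  have h := sqrt2_sq
  nlinarith [h]

private theorem alg_pow (y q a : ℕ) (h : y = q + a) :
    (√2 + 1) ^ y * (√2 - 1) ^ a = (√2 + 1) ^ q := by
  rw [h, pow_add, mul_assoc, ← mul_pow, alg_one, one_pow, mul_one]

theorem pair_lemma [DecidableEq ι] {V : AddSubgroup (ι → ℝ)} (hV : Adm V) {v v' : ι → ℝ}
    (hv : v ∈ V) (hv' : v' ∈ V) (hb : InBox v) (hb' : InBox v') (hX : PX v' = PX v)
    (hxy : (NY v).card ≤ (PX v).card) (hxy' : (NY v').card ≤ (PX v).card) :
    (PX v).card ≤ 6 * (NY v ∩ NY v').card := by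
  by_contra hcon
  push Not at hcon
  have hx1 : 1 ≤ (PX v).card := by omega
  have h0 : v ≠ 0 := by
    rintro rfl
    have : PX (0 : ι → ℝ) = ∅ := by
      apply Finset.eq_empty_of_forall_notMem
      intro i hi
      rw [mem_PX] at hi
      simp only [Pi.zero_apply] at hi
      norm_num at hi
    rw [this] at hx1
    simp at hx1
  have h0' : v' ≠ 0 := by
    rintro rfl
    have : PX (0 : ι → ℝ) = ∅ := by
      apply Finset.eq_empty_of_forall_notMem
      intro i hi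
      rw [mem_PX] at hi
      simp only [Pi.zero_apply] at hi
      norm_num at hi
    rw [← hX, this] at hx1
    simp at hx1
  have h1 : 1 - tau ≤ ∏ i, |v i + v' i + 1| := hV (v + v') (V.add_mem hv hv')
  have h2 := pair_prod_le hV hv hv' hb hb' h0 h0' hX hxy hxy'
  have h3 := balance hV hv hb h0 hxy
  have h4 := balance hV hv' hb' h0' (by rw [hX]; exact hxy')
  rw [hX] at h4
  have ha : (NY v).card = (NY v ∩ NY v').card + (NY v \ NY v').card := by
    have := Finset.card_inter_add_card_sdiff (NY v) (NY v')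
    omega
  have hb2 : (NY v').card = (NY v ∩ NY v').card + (NY v' \ NY v).card := by
    have := Finset.card_inter_add_card_sdiff (NY v') (NY v)
    rw [Finset.inter_comm] at this
    omega
  set x := (PX v).card with hxdef
  set y := (NY v).card
  set y' := (NY v').card
  set q := (NY v ∩ NY v').card
  set a := (NY v \ NY v').card
  set b := (NY v' \ NY v).card
  set E1 := Real.exp (∑ i ∈ SM v, v i) with hE1
  set E2 := Real.exp (∑ i ∈ SM v', v' i) with hE2
  have hE1p : 0 < E1 := Real.exp_pos _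
  have hE2p : 0 < E2 := Real.exp_pos _
  have hs1 : 0 < √2 - 1 := by have := sqrt2_lb; linarith
  have hs2 : 0 < √2 + 1 := by have := sqrt2_lb; linarith
  have hs3 : 0 < 2 * √2 - 1 := by have := sqrt2_lb; linarith
  have hs4 : 0 < 1 + 2 * √2 := by have := sqrt2_lb; linarith
  have ht0 : 0 < 1 - tau := by unfold tau; norm_num
  set G := Real.exp (109 * eps * x) with hG
  set H := Real.exp ((96 / 10000 + 219 * eps) * x) with hH
  set W := (1 + 2 * √2) ^ x * (√2 - 1) ^ a * (√2 - 1) ^ b * (2 * √2 - 1) ^ q with hW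
  have hWp : 0 < W := by positivity
  have hHp : 0 < H := Real.exp_pos _
  have h5 : (1 - tau) ^ 3 ≤ ((√2 - 1) ^ x * (√2 + 1) ^ y * G) *
      ((√2 - 1) ^ x * (√2 + 1) ^ y' * G) * (W * H) := by
    have h6 : 1 - tau ≤ E1 * E2 * W * H := h1.trans h2
    have h7 : (1 - tau) ^ 3 ≤ ((1 - tau) * E1) * ((1 - tau) * E2) * (W * H) := by
      calc (1 - tau) ^ 3 = (1 - tau) ^ 2 * (1 - tau) := by ring
        _ ≤ (1 - tau) ^ 2 * (E1 * E2 * W * H) := mul_le_mul_of_nonneg_left h6 (by positivity)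
        _ = _ := by ring
    refine h7.trans ?_
    apply mul_le_mul_of_nonneg_right _ (by positivity)
    exact mul_le_mul h3 h4 (by positivity) (by positivity)
  have h8 : ((√2 - 1) ^ x * (√2 + 1) ^ y * G) *
      ((√2 - 1) ^ x * (√2 + 1) ^ y' * G) * (W * H) =
      (4 * √2 - 5) ^ x * (4 * √2 + 5) ^ q * (G * G * H) := by
    rw [← alg_A, ← alg_B, mul_pow, mul_pow, ← pow_mul, ← pow_mul, hW]
    have e1 := alg_pow y q a ha
    have e2 := alg_pow y' q b hb2
    calc _ = (√2 - 1) ^ x * (√2 - 1) ^ x * (1 + 2 * √2) ^ x *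
        (((√2 + 1) ^ y * (√2 - 1) ^ a) * ((√2 + 1) ^ y' * (√2 - 1) ^ b) * (2 * √2 - 1) ^ q) *
        (G * G * H) := by ring
      _ = (√2 - 1) ^ x * (√2 - 1) ^ x * (1 + 2 * √2) ^ x *
        ((√2 + 1) ^ q * (√2 + 1) ^ q * (2 * √2 - 1) ^ q) * (G * G * H) := by rw [e1, e2]
      _ = _ := by ring
  have h9 : G * G * H ≤ Real.exp (1 / 100 * x) := by
    rw [hG, hH, ← Real.exp_add, ← Real.exp_add]
    apply Real.exp_le_exp.2
    have he := eps_le
    have hx0 : (0 : ℝ) ≤ x := Nat.cast_nonneg _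
    have : 109 * eps * (x : ℝ) + 109 * eps * x + (96 / 10000 + 219 * eps) * x =
        (96 / 10000 + 437 * eps) * x := by ring
    rw [this]
    apply mul_le_mul_of_nonneg_right _ hx0
    linarith
  have hA0 : 0 < 4 * √2 - 5 := by have := sqrt2_lb; linarith
  have hB1 : 1 ≤ 4 * √2 + 5 := by have := sqrt2_lb; linarith
  have h10 : (1 - tau) ^ 3 ≤ (4 * √2 - 5) ^ x * (4 * √2 + 5) ^ q * Real.exp (1 / 100 * x) := by
    rw [h8] at h5
    refine h5.trans ?_
    exact mul_le_mul_of_nonneg_left h9 (by positivity)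
  have h11 : (1 - tau) ^ 18 ≤
      ((4 * √2 - 5) ^ x * (4 * √2 + 5) ^ q * Real.exp (1 / 100 * x)) ^ 6 := by
    calc (1 - tau) ^ 18 = ((1 - tau) ^ 3) ^ 6 := by rw [← pow_mul]
      _ ≤ _ := pow_le_pow_left₀ (by positivity) h10 6
  have h12 : ((4 * √2 - 5) ^ x * (4 * √2 + 5) ^ q * Real.exp (1 / 100 * x)) ^ 6 ≤
      ((4 * √2 - 5) ^ 6 * (4 * √2 + 5) * Real.exp (6 / 100)) ^ x := by
    rw [mul_pow, mul_pow, mul_pow, mul_pow, ← pow_mul, ← pow_mul, ← pow_mul, ← Real.exp_nat_mul,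
      ← Real.exp_nat_mul, mul_comm x 6, mul_comm q 6]
    have e3 : ((6 : ℕ) : ℝ) * (1 / 100 * (x : ℝ)) = (x : ℝ) * (6 / 100) := by push_cast; ring
    rw [e3]
    apply mul_le_mul_of_nonneg_right _ (Real.exp_pos _).le
    apply mul_le_mul_of_nonneg_left _ (by positivity)
    exact pow_le_pow_right₀ hB1 hcon.le
  have h13 : (4 * √2 - 5) ^ 6 * (4 * √2 + 5) * Real.exp (6 / 100) ≤ 92 / 100 := by
    have e4 : (4 * √2 - 5) * (4 * √2 + 5) = 7 := by
      have h := sqrt2_sq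
      nlinarith [h]
    have e5 : (4 * √2 - 5) ^ 6 * (4 * √2 + 5) * Real.exp (6 / 100) =
        7 * (4 * √2 - 5) ^ 5 * Real.exp (6 / 100) := by
      rw [← e4]; ring
    rw [e5]
    exact key_num
  have h14 : ((4 * √2 - 5) ^ 6 * (4 * √2 + 5) * Real.exp (6 / 100)) ^ x ≤ 92 / 100 := by
    have hnn : 0 ≤ (4 * √2 - 5) ^ 6 * (4 * √2 + 5) * Real.exp (6 / 100) := by positivity
    calc _ ≤ ((4 * √2 - 5) ^ 6 * (4 * √2 + 5) * Real.exp (6 / 100)) ^ 1 :=
          pow_le_pow_of_le_one hnn (h13.trans (by norm_num)) hx1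
      _ ≤ _ := by rw [pow_one]; exact h13
  have h15 := tau_pow
  linarith [h11.trans (h12.trans h14)]

end Pool.Agent.Helper16.MK
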