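import Pool.Agent.Helper16.MK.CS
import Pool.Agent.Helper16.MK.Count
import Pool.Agent.Helper16.MK.Pair
import Pool.Agent.Helper16.MK.KBound

/-!
MK-14. The core theorem.

Proof. Let `V` be the additive group of the vectors `M n`, `n : ι → ℤ` (range of an additive
homomorphism); `h` says `Adm V`. Take `F` from `lattice_second_moment` with `a = aa`. The map
`n ↦ (PX (M n), NY (M n))` is injective on `F` (`eq_of_pattern` and the injectivity of `M`, since
`det M ≠ 0`); let `𝒜` be the image. `kernel_le` and `card_TT` give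
`∑_{n ∈ F} ∏ (1 - |(M n) k|/a) ≤ ∑_{p ∈ 𝒜} ω^(|p.1| + |p.2|)`. `𝒜` is symmetric (`F = -F`, `PX_neg`,
`NY_neg`) and satisfies the hypothesis `hpair` of `count_le` by `pair_lemma`.
-/

set_option autoImplicit false

namespace Pool.Agent.Helper16.MK

/-- the linear map of the matrix on integer vectors -/
private noncomputable def vec {ι : Type*} [Fintype ι] (M : Matrix ι ι ℝ) (n : ι → ℤ) : ι → ℝ :=
  fun k => ∑ j, M k j * (n j : ℝ)

private theorem vec_add {ι : Type*} [Fintype ι] (M : Matrix ι ι ℝ) (n m : ι → ℤ) :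
    vec M (n + m) = vec M n + vec M m := by
  funext k
  simp only [vec, Pi.add_apply]
  rw [← Finset.sum_add_distrib]
  refine Finset.sum_congr rfl (fun j _ => ?_)
  push_cast
  ring

private theorem vec_neg {ι : Type*} [Fintype ι] (M : Matrix ι ι ℝ) (n : ι → ℤ) :
    vec M (-n) = -vec M n := by
  funext k
  simp only [vec, Pi.neg_apply]
  rw [← Finset.sum_neg_distrib]
  refine Finset.sum_congr rfl (fun j _ => ?_)
  push_cast
  ring

private theorem vec_inj {ι : Type*} [Fintype ι] [DecidableEq ι] (M : Matrix ι ι ℝ)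
    (hM : M.det ≠ 0) {n m : ι → ℤ} (h : vec M n = vec M m) : n = m := by
  have h1 : M.mulVec (fun j => ((n j : ℝ) - m j)) = 0 := by
    funext k
    have h2 := congrFun h k
    simp only [vec] at h2
    simp only [Matrix.mulVec, dotProduct, Pi.zero_apply]
    have h3 : ∑ j, M k j * ((n j : ℝ) - m j) =
        ∑ j, M k j * (n j : ℝ) - ∑ j, M k j * (m j : ℝ) := by
      rw [← Finset.sum_sub_distrib]
      exact Finset.sum_congr rfl (fun j _ => by ring)
    rw [h3, h2, sub_self]
  have h4 := Matrix.eq_zero_of_mulVec_eq_zero hM h1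
  funext j
  have h5 := congrFun h4 j
  simp only [Pi.zero_apply, sub_eq_zero] at h5
  exact_mod_cast h5

theorem core {ι : Type*} [Fintype ι] [DecidableEq ι] (M : Matrix ι ι ℝ) (hM : M.det ≠ 0)
    (h : ∀ n : ι → ℤ, 1 - tau ≤ ∏ k, |∑ j, M k j * (n j : ℝ) + 1|) :
    aa ^ Fintype.card ι ≤
      |M.det| * (2 * Real.exp (3 * (1 / 4) ^ 13 * (Fintype.card ι : ℝ))) := by
  classical
  let f : (ι → ℤ) →+ (ι → ℝ) :=
    { toFun := vec M
      map_zero' := by
        funext k
        simp [vec]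
      map_add' := vec_add M }
  have hf : ∀ n, f n = vec M n := fun n => rfl
  set V : AddSubgroup (ι → ℝ) := f.range with hVdef
  have hV : Adm V := by
    rintro v ⟨n, rfl⟩
    rw [hf]
    exact h n
  have hmem : ∀ n, vec M n ∈ V := fun n => ⟨n, rfl⟩
  have haa : 0 < aa := lt_trans (Real.sqrt_pos.2 (by norm_num)) aa_lb
  obtain ⟨F, hF, hsum⟩ := lattice_second_moment M hM aa haa
  have hbox : ∀ n ∈ F, InBox (vec M n) := fun n hn => (hF n).1 hn
  set pat : (ι → ℤ) → Finset ι × Finset ι := fun n => (PX (vec M n), NY (vec M n)) with hpat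
  have hinj : Set.InjOn pat (F : Set (ι → ℤ)) := by
    intro n hn m hm hnm
    rw [hpat] at hnm
    simp only [Prod.mk.injEq] at hnm
    exact vec_inj M hM (eq_of_pattern hV (hmem n) (hmem m) (hbox n (Finset.mem_coe.1 hn))
      (hbox m (Finset.mem_coe.1 hm)) hnm.1 hnm.2)
  have hle : ∑ n ∈ F, ∏ k, (1 - |∑ j, M k j * (n j : ℝ)| / aa) ≤
      ∑ p ∈ F.image pat, om ^ (p.1.card + p.2.card) := by
    rw [Finset.sum_image hinj]
    refine Finset.sum_le_sum (fun n hn => ?_)
    have h1 := kernel_le hV (hmem n) (hbox n hn)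
    rw [card_TT] at h1
    exact h1
  have hsymm : ∀ p ∈ F.image pat, (p.2, p.1) ∈ F.image pat := by
    intro p hp
    obtain ⟨n, hn, rfl⟩ := Finset.mem_image.1 hp
    refine Finset.mem_image.2 ⟨-n, ?_, ?_⟩
    · rw [hF]
      intro k
      have h1 := (hbox n hn).neg k
      rw [← vec_neg] at h1
      exact h1
    · simp only [hpat]
      rw [vec_neg, PX_neg, NY_neg]
  have hpair : ∀ X Y Y' : Finset ι, (X, Y) ∈ F.image pat → (X, Y') ∈ F.image pat →
      Y.card ≤ X.card → Y'.card ≤ X.card → X.card ≤ 6 * (Y ∩ Y').card := by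
    intro X Y Y' h1 h2 h3 h4
    obtain ⟨n, hn, hn2⟩ := Finset.mem_image.1 h1
    obtain ⟨m, hm, hm2⟩ := Finset.mem_image.1 h2
    simp only [hpat, Prod.mk.injEq] at hn2 hm2
    obtain ⟨rfl, rfl⟩ := hn2
    obtain ⟨h5, rfl⟩ := hm2
    exact pair_lemma hV (hmem n) (hmem m) (hbox n hn) (hbox m hm) h5 h3 h4
  have hcount := count_le (F.image pat) hsymm hpair
  refine hsum.trans ?_
  exact mul_le_mul_of_nonneg_left (hle.trans hcount) (abs_nonneg _)

end Pool.Agent.Helper16.MK
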