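import Mathlib

/-!
Project MK (MP_b57d95_nt): an exponential improvement of the theorem of Chebotarev on the product of
inhomogeneous linear forms. For all `d`, all real linear forms `L_1, ..., L_d` of determinant `Δ ≠ 0`
and all real `c_k` some integer vector `n` satisfies
`∏ |L_k(n) + c_k| ≤ |Δ| (2 + 10⁻⁸)^(-d/2)`.

Parameters: `ε = 1 / (5 * 2 ^ 22)`, `N = 5 * 2 ^ 20` (so `4 N ε = 1`), `ω = 4⁻¹² = (5/4) ε`,
`a = √2 (1 + ε)`, `τ = 10⁻⁹`.
-/

set_option autoImplicit false

namespace Pool.Agent.Helper16.MK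

open Finset

/-- `ε` -/
noncomputable def eps : ℝ := 1 / (5 * 2 ^ 22)

/-- `N`, with `4 N ε = 1` -/
def NN : ℕ := 5 * 2 ^ 20

/-- `ω = (5/4) ε` -/
noncomputable def om : ℝ := (1 / 4) ^ 12

/-- the side `a` of the cube -/
noncomputable def aa : ℝ := √2 * (1 + eps)

/-- `τ` -/
noncomputable def tau : ℝ := 1 / 10 ^ 9

/-- the vector lies in the open cube `(-a, a)^d` -/
def InBox {ι : Type*} (v : ι → ℝ) : Prop := ∀ i, |v i| < aa

variable {ι : Type*} [Fintype ι]

/-- the set of the coordinates which are at least `1/2` -/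
noncomputable def PX (v : ι → ℝ) : Finset ι := univ.filter (fun i => 1 / 2 ≤ v i)

/-- the set of the coordinates which are at most `-1/2` -/
noncomputable def NY (v : ι → ℝ) : Finset ι := univ.filter (fun i => v i ≤ -(1 / 2))

/-- the set of the small coordinates -/
noncomputable def SM (v : ι → ℝ) : Finset ι := univ.filter (fun i => |v i| < 1 / 2)

/-- the set of the coordinates of absolute value at least `1/2` -/
noncomputable def TT (v : ι → ℝ) : Finset ι := univ.filter (fun i => 1 / 2 ≤ |v i|)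

/-- the additive group `V` of vectors has no point `v` with `∏ |v_i + 1| < 1 - τ` -/
def Adm (V : AddSubgroup (ι → ℝ)) : Prop := ∀ v ∈ V, 1 - tau ≤ ∏ i, |v i + 1|

end Pool.Agent.Helper16.MK
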