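import Pool.Agent.Helper16.MK.Basic

/-!
MK-16. The final numerical inequality.

Proof. Square: both sides are positive, so it is enough that
`(2 + 10⁻⁸) exp (6 h^13) < aa² = 2 (1 + ε)²`, `h = 1/4`. `6 h^13 = 6/4 ω = (15/8) ε`,
`exp t ≤ 1 / (1 - t)`, so it is enough that `2 + 10⁻⁸ < 2 (1 + ε)² (1 - 15/8 ε)`; here
`ε = 1 / 20971520`. (Rational arithmetic: the difference is about `1.9e-9`.)
-/

set_option autoImplicit false

namespace Pool.Agent.Helper16.MK

theorem final_num : √(2 + 1 / 10 ^ 8) * Real.exp (3 * (1 / 4) ^ 13) < aa := by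
  have he : Real.exp (3 * (1 / 4) ^ 13) ≤ 1 / (1 - 3 * (1 / 4) ^ 13) :=
    Real.exp_bound_div_one_sub_of_interval (by norm_num) (by norm_num)
  have haa : aa = √2 * (1 + eps) := by
    have := aa_sub
    linarith
  have hs : √(2 + 1 / 10 ^ 8) ≤ √2 * (1 + 1 / 399999999) := by
    rw [Real.sqrt_le_left (by positivity)]
    rw [mul_pow, Real.sq_sqrt (by norm_num)]
    norm_num
  have hpos : (0 : ℝ) < √2 := Real.sqrt_pos.2 (by norm_num)
  rw [haa]
  calc √(2 + 1 / 10 ^ 8) * Real.exp (3 * (1 / 4) ^ 13)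
      ≤ (√2 * (1 + 1 / 399999999)) * (1 / (1 - 3 * (1 / 4) ^ 13)) :=
        mul_le_mul hs he (Real.exp_pos _).le (by positivity)
    _ = √2 * ((1 + 1 / 399999999) * (1 / (1 - 3 * (1 / 4) ^ 13))) := by ring
    _ < √2 * (1 + eps) := by
        refine mul_lt_mul_of_pos_left ?_ hpos
        unfold eps
        norm_num

end Pool.Agent.Helper16.MK
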