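import Pool.Agent.Helper16.MK.Norm
import Pool.Agent.Helper16.MK.Num

/-!
MK-17. The theorem, by the tensor power trick.

Proof. Let `θ = √(2 + 10⁻⁸)`, `d = |ι|`. If `d = 0` the product and the determinant are `1`. Let
`d ≥ 1` and suppose `|∏ (L_k(n) + c_k)| θ^d > |det L|` for all `n`; let `κ₁ = |det L| / θ^d > 0`. For
`K ≥ 1` let `ι' = ι × Fin K`, `L' (k, p) (j, q) = if p = q then L k j else 0`
(`Matrix.blockDiagonal (fun _ => L)`, `Matrix.det_blockDiagonal`), `c' (k, p) = c k`. The values of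
the product for `L', c'` are products of `K` values for `L, c`, so larger than `κ₁^K`;
`norm_bound` gives `κ₁^K aa^(d K) ≤ |det L|^K 2 exp (3 h^13 d K)`, i.e. with `η = (θ exp (3 h^13) / aa)^d`,
`1 ≤ 2 η^K` for all `K ≥ 1`. But `η < 1` by `final_num` (`d ≥ 1`): contradiction for large `K`
(`tendsto_pow_atTop_nhds_zero_of_lt_one`).
-/

set_option autoImplicit false

namespace Pool.Agent.Helper16.MK

private theorem block_sum {ι : Type*} [Fintype ι] [DecidableEq ι] (L : Matrix ι ι ℝ) (K : ℕ)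
    (n : ι × Fin K → ℤ) (p : ι × Fin K) :
    ∑ q : ι × Fin K, Matrix.blockDiagonal (fun _ : Fin K => L) p q * (n q : ℝ) =
      ∑ j, L p.1 j * (n (j, p.2) : ℝ) := by
  rw [Fintype.sum_prod_type]
  refine Finset.sum_congr rfl (fun j _ => ?_)
  rw [Finset.sum_eq_single p.2]
  · rw [Matrix.blockDiagonal_apply]
    simp
  · intro k _ hk
    rw [Matrix.blockDiagonal_apply]
    simp [Ne.symm hk]
  · intro h
    exact absurd (Finset.mem_univ _) h

theorem main {ι : Type*} [Fintype ι] [DecidableEq ι] (L : Matrix ι ι ℝ) (hL : L.det ≠ 0)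
    (c : ι → ℝ) :
    ∃ n : ι → ℤ, |∏ k, (∑ j, L k j * (n j : ℝ) + c k)| * √(2 + 1 / 10 ^ 8) ^ Fintype.card ι ≤
      |L.det| := by
  by_contra hcon
  push Not at hcon
  rcases Nat.eq_zero_or_pos (Fintype.card ι) with hd | hd
  · have : IsEmpty ι := Fintype.card_eq_zero_iff.1 hd
    have h := hcon (fun _ => 0)
    rw [hd] at h
    simp at h
  · set d := Fintype.card ι with hddef
    set θ := √(2 + 1 / 10 ^ 8) with hθ
    have hθp : 0 < θ := Real.sqrt_pos.2 (by norm_num)
    have hdet : 0 < |L.det| := abs_pos.2 hL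
    set κ := |L.det| / θ ^ d with hκ
    have hκp : 0 < κ := by positivity
    have h1 : ∀ n : ι → ℤ, κ < |∏ k, (∑ j, L k j * (n j : ℝ) + c k)| := by
      intro n
      rw [hκ, div_lt_iff₀ (by positivity)]
      exact hcon n
    set e := Real.exp (3 * (1 / 4) ^ 13) with he
    have hep : 0 < e := Real.exp_pos _
    have haa : 0 < aa := lt_trans (Real.sqrt_pos.2 (by norm_num)) aa_lb
    set R := aa / (θ * e) with hR
    have hR1 : 1 < R := by
      rw [hR, one_lt_div (by positivity)]
      exact final_num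
    have hRd : 1 < R ^ d := one_lt_pow₀ hR1 (by omega)
    obtain ⟨K, hK⟩ := pow_unbounded_of_one_lt (2 : ℝ) hRd
    have hK1 : 1 ≤ K := by
      rcases Nat.eq_zero_or_pos K with h0 | h0
      · rw [h0, pow_zero] at hK
        norm_num at hK
      · exact h0
    have : Nonempty (Fin K) := ⟨⟨0, hK1⟩⟩
    have hdetK : (Matrix.blockDiagonal (fun _ : Fin K => L)).det = L.det ^ K := by
      rw [Matrix.det_blockDiagonal]
      simp
    have h2 : ∀ n : ι × Fin K → ℤ, κ ^ K < |∏ p : ι × Fin K,
        (∑ q, Matrix.blockDiagonal (fun _ : Fin K => L) p q * (n q : ℝ) + c p.1)| := by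
      intro n
      have h3 : ∏ p : ι × Fin K,
          (∑ q, Matrix.blockDiagonal (fun _ : Fin K => L) p q * (n q : ℝ) + c p.1) =
          ∏ k : Fin K, ∏ i, (∑ j, L i j * (n (j, k) : ℝ) + c i) := by
        rw [Fintype.prod_prod_type_right]
        refine Finset.prod_congr rfl (fun k _ => Finset.prod_congr rfl (fun i _ => ?_))
        rw [block_sum]
      rw [h3, Finset.abs_prod]
      have h4 : κ ^ K = ∏ _k : Fin K, κ := by simp
      rw [h4]
      exact Finset.prod_lt_prod_of_nonempty (fun _ _ => hκp)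
        (fun k _ => h1 (fun j => n (j, k))) Finset.univ_nonempty
    have h5 := norm_bound (Matrix.blockDiagonal (fun _ : Fin K => L))
      (by rw [hdetK]; exact pow_ne_zero _ hL) (fun p => c p.1) (κ ^ K) (by positivity) h2
    have hcard : Fintype.card (ι × Fin K) = d * K := by
      rw [Fintype.card_prod, Fintype.card_fin]
    rw [hdetK, hcard, abs_pow] at h5
    have h6 : Real.exp (3 * (1 / 4) ^ 13 * ((d * K : ℕ) : ℝ)) = (e ^ d) ^ K := by
      rw [he, ← pow_mul, ← Real.exp_nat_mul, mul_comm]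
    rw [h6] at h5
    have h7 : κ ^ K * aa ^ (d * K) = (|L.det| * e ^ d) ^ K * (R ^ d) ^ K := by
      have h71 : κ * aa ^ d = |L.det| * e ^ d * R ^ d := by
        rw [hκ, hR, div_pow, mul_pow θ e d]
        field_simp
      rw [pow_mul aa d K, ← mul_pow κ, h71, mul_pow]
    rw [h7] at h5
    have h8 : |L.det| ^ K * (2 * (e ^ d) ^ K) = (|L.det| * e ^ d) ^ K * 2 := by
      rw [mul_pow]; ring
    rw [h8] at h5
    have h9 : (R ^ d) ^ K ≤ 2 := le_of_mul_le_mul_left h5 (by positivity)
    linarith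

end Pool.Agent.Helper16.MK
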