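import Pool.Agent.Helper16.MK.Basic

/-!
MK-02. The bound `(1 - b/a) |b² - 1|^N ≤ 1.18 ε` for `1/2 ≤ b < a`, where `4 N ε = 1`.

Proof. Put `y = 1 - b/a`, `0 < y ≤ 1`, `b = a (1 - y)`.
Case `b ≥ 1`. Then `y ≤ 1 - 1/a ≤ 3/10` (as `a < 1.4143`). `0 ≤ b² - 1 ≤ exp (b² - 2)`, so
`(b² - 1)^N ≤ exp (N (b² - 2))`. As `a² = 2 (1 + ε)²` and `(1 - y)² ≤ 1`,
`b² - 2 = 2 (1 + ε)² (1 - y)² - 2 ≤ 2 (1 - y)² - 2 + 4 ε + 2 ε² = 4 ε + 2 ε² - 4 y + 2 y²`, and with
`N = 1 / (4 ε)`: `N (b² - 2) ≤ 1 + ε/2 - (y/ε)(1 - y/2) ≤ 1 + ε/2 - u`, `u = 0.85 y / ε`. So the product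
is at most `(ε/0.85) u exp (1 - u) exp (ε/2) ≤ (ε/0.85) exp (ε/2) ≤ 1.18 ε`, since
`u ≤ exp (u - 1)` and `exp (ε/2) ≤ 1 / (1 - ε/2)`.
Case `b < 1`. Then `|b² - 1| ≤ 3/4` and it is enough that `(3/4)^N ≤ ε`: e.g.
`(3/4)^N ≤ exp (-N/4) = exp (-N/8)² ≤ 1 / (N/8)² = 64 · 16 ε² ≤ ε` (`exp x ≥ x`, `N = 1/(4ε)`), or Bernoulli
for `(4/3)^(N/2)`. Never evaluate a power with exponent `N` numerically (make `NN` irreducible).
-/

set_option autoImplicit false

namespace Pool.Agent.Helper16.MK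

private theorem mul_exp_neg_le (u : ℝ) : u * Real.exp (1 - u) ≤ 1 := by
  have h1 := Real.add_one_le_exp (u - 1)
  have h2 : Real.exp (1 - u) = (Real.exp (u - 1))⁻¹ := by
    rw [← Real.exp_neg]
    congr 1
    ring
  rw [h2, ← div_eq_mul_inv, div_le_one (Real.exp_pos _)]
  linarith

private theorem exp_half_le : Real.exp (eps / 2) ≤ 1.0001 := by
  have he := eps_pos
  have he2 := eps_le
  have h4 := Real.add_one_le_exp (-(eps / 2))
  rw [Real.exp_neg] at h4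
  have h5 := Real.exp_pos (eps / 2)
  have h6 : (-(eps / 2) + 1) * Real.exp (eps / 2) ≤
      (Real.exp (eps / 2))⁻¹ * Real.exp (eps / 2) := mul_le_mul_of_nonneg_right h4 h5.le
  rw [inv_mul_cancel₀ h5.ne'] at h6
  by_contra hcon
  push Not at hcon
  nlinarith

private theorem far_case (N : ℕ) (hN : 4 * (N : ℝ) * eps = 1) :
    ((3 : ℝ) / 4) ^ N ≤ eps := by
  have he := eps_pos
  have he2 := eps_le
  have h1 : (3 : ℝ) / 4 ≤ Real.exp (-(1 / 4)) := by
    have := Real.add_one_le_exp (-(1 / 4 : ℝ))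
    linarith
  have h2 : ((3 : ℝ) / 4) ^ N ≤ Real.exp (-(N / 8 : ℝ)) ^ 2 := by
    calc ((3 : ℝ) / 4) ^ N ≤ Real.exp (-(1 / 4)) ^ N := pow_le_pow_left₀ (by norm_num) h1 N
      _ = Real.exp (-(N / 8 : ℝ)) ^ 2 := by
          rw [← Real.exp_nat_mul, ← Real.exp_nat_mul]
          congr 1
          push_cast
          ring
  have hN0 : 0 < (N : ℝ) := by
    rcases Nat.eq_zero_or_pos N with h | h
    · rw [h] at hN
      simp at hN
    · exact_mod_cast h
  have h3 : Real.exp (-(N / 8 : ℝ)) ≤ 32 * eps := by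
    rw [Real.exp_neg]
    have h4 := Real.add_one_le_exp (N / 8 : ℝ)
    have h5 : (N / 8 : ℝ) ≤ Real.exp (N / 8 : ℝ) := by linarith
    have h6 : (32 * eps) * (N / 8 : ℝ) = 1 := by linarith
    rw [inv_le_comm₀ (Real.exp_pos _) (by positivity)]
    refine le_trans ?_ h5
    rw [inv_eq_one_div, div_le_iff₀ (by positivity)]
    linarith
  calc ((3 : ℝ) / 4) ^ N ≤ Real.exp (-(N / 8 : ℝ)) ^ 2 := h2
    _ ≤ (32 * eps) ^ 2 := pow_le_pow_left₀ (Real.exp_pos _).le h3 2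
    _ ≤ eps := by nlinarith

private theorem near_case (N : ℕ) (hN : 4 * (N : ℝ) * eps = 1) {b : ℝ} (h1 : 1 ≤ b)
    (h2 : b < aa) : (1 - b / aa) * |b ^ 2 - 1| ^ N ≤ 118 / 100 * eps := by
  have he := eps_pos
  have he2 := eps_le
  have haa : 0 < aa := lt_trans (Real.sqrt_pos.2 (by norm_num)) aa_lb
  set y := 1 - b / aa with hy
  have hb : b = aa * (1 - y) := by
    rw [hy]
    field_simp
    ring
  have hy0 : 0 < y := by
    rw [hy, sub_pos, div_lt_one haa]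
    exact h2
  have hy1 : y ≤ 3 / 10 := by
    have h3 : (7 / 10 : ℝ) ≤ b / aa := by
      rw [le_div_iff₀ haa]
      have := aa_ub
      linarith
    rw [hy]
    linarith
  have haa2 : aa ^ 2 = 2 * (1 + eps) ^ 2 := by
    unfold aa
    rw [mul_pow, Real.sq_sqrt (by norm_num)]
  have h4 : b ^ 2 - 2 ≤ 4 * eps + 2 * eps ^ 2 - 4 * y + 2 * y ^ 2 := by
    rw [hb, mul_pow, haa2]
    have h5 : (1 - y) ^ 2 ≤ 1 := by nlinarith
    have h6 : 0 ≤ 2 * eps + eps ^ 2 := by positivity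
    have h7 : (2 * eps + eps ^ 2) * (1 - y) ^ 2 ≤ (2 * eps + eps ^ 2) * 1 :=
      mul_le_mul_of_nonneg_left h5 h6
    have h8 : 2 * (1 + eps) ^ 2 * (1 - y) ^ 2 =
        2 * (1 - y) ^ 2 + 2 * ((2 * eps + eps ^ 2) * (1 - y) ^ 2) := by ring
    rw [h8]
    nlinarith
  have hb2 : 0 ≤ b ^ 2 - 1 := by nlinarith
  rw [abs_of_nonneg hb2]
  have h9 : (b ^ 2 - 1) ^ N ≤ Real.exp ((N : ℝ) * (b ^ 2 - 2)) := by
    rw [Real.exp_nat_mul]
    apply pow_le_pow_left₀ hb2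
    have := Real.add_one_le_exp (b ^ 2 - 2)
    linarith
  set u := 85 / 100 * y / eps with hu
  have hNe : (N : ℝ) = 1 / (4 * eps) := by
    rw [eq_div_iff (by positivity)]
    linarith
  have h10 : (N : ℝ) * (b ^ 2 - 2) ≤ eps / 2 + (1 - u) := by
    have hN0 : (0 : ℝ) ≤ N := Nat.cast_nonneg _
    calc (N : ℝ) * (b ^ 2 - 2) ≤ N * (4 * eps + 2 * eps ^ 2 - 4 * y + 2 * y ^ 2) :=
          mul_le_mul_of_nonneg_left h4 hN0
      _ = eps / 2 + (1 - (y - y ^ 2 / 2) / eps) := by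
          rw [hNe]
          field_simp
          ring
      _ ≤ eps / 2 + (1 - u) := by
          have h11 : u ≤ (y - y ^ 2 / 2) / eps := by
            rw [hu]
            apply div_le_div_of_nonneg_right _ he.le
            nlinarith
          linarith
  have h12 : (b ^ 2 - 1) ^ N ≤ Real.exp (eps / 2) * Real.exp (1 - u) := by
    rw [← Real.exp_add]
    exact h9.trans (Real.exp_le_exp.2 h10)
  have h13 := mul_exp_neg_le u
  have hyu : y = 100 / 85 * eps * u := by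
    rw [hu]
    field_simp
  calc y * (b ^ 2 - 1) ^ N ≤ y * (Real.exp (eps / 2) * Real.exp (1 - u)) :=
        mul_le_mul_of_nonneg_left h12 hy0.le
    _ = 100 / 85 * eps * Real.exp (eps / 2) * (u * Real.exp (1 - u)) := by
        nth_rewrite 1 [hyu]
        ring
    _ ≤ 100 / 85 * eps * Real.exp (eps / 2) * 1 :=
        mul_le_mul_of_nonneg_left h13 (by positivity)
    _ ≤ 118 / 100 * eps := by
        have h14 := exp_half_le
        nlinarith

theorem kern_le {b : ℝ} (h1 : 1 / 2 ≤ b) (h2 : b < aa) :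
    (1 - b / aa) * |b ^ 2 - 1| ^ NN ≤ 118 / 100 * eps := by
  have hN := four_NN_eps
  generalize NN = N at hN ⊢
  have he := eps_pos
  rcases le_or_gt 1 b with hb | hb
  · exact near_case N hN hb h2
  · have haa : 0 < aa := lt_trans (Real.sqrt_pos.2 (by norm_num)) aa_lb
    have h3 : |b ^ 2 - 1| ≤ 3 / 4 := by
      rw [abs_le]
      constructor <;> nlinarith
    have h4 : |b ^ 2 - 1| ^ N ≤ eps :=
      (pow_le_pow_left₀ (abs_nonneg _) h3 N).trans (far_case N hN)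
    have h5 : 1 - b / aa ≤ 1 := by
      have : 0 ≤ b / aa := by positivity
      linarith
    have h6 : 0 ≤ |b ^ 2 - 1| ^ N := by positivity
    calc (1 - b / aa) * |b ^ 2 - 1| ^ N ≤ 1 * |b ^ 2 - 1| ^ N :=
          mul_le_mul_of_nonneg_right h5 h6
      _ ≤ eps := by rw [one_mul]; exact h4
      _ ≤ 118 / 100 * eps := by linarith

end Pool.Agent.Helper16.MK
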