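import Pool.Agent.Helper16.MK.Core

/-!
MK-15. Normalisation.

Proof. Let `P n = |∏ (L_k(n) + c_k)| > κ > 0` for all `n` and `m = inf P ≥ κ > 0`. There is `n₀` with
`(1 - τ) P n₀ ≤ m` (otherwise `P n > m / (1 - τ)` for all `n`, so `m ≥ m / (1 - τ) > m`; take
`exists_lt_of_ciInf_lt`). All `e_k = L_k(n₀) + c_k` are nonzero. Put `M k j = L k j / e_k`; then
`∑ j, M k j n j + 1 = (L_k(n + n₀) + c_k) / e_k`, so `∏ |…| = P (n + n₀) / P n₀ ≥ m / P n₀ ≥ 1 - τ`, and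
`det M = det L / ∏ e_k` (`M = diagonal (e⁻¹) * L`), `|det M| = |det L| / P n₀`. `core` gives
`P n₀ aa^d ≤ |det L| (2 exp …)`, and `κ ≤ P n₀`.
-/

set_option autoImplicit false

namespace Pool.Agent.Helper16.MK

theorem norm_bound {ι : Type*} [Fintype ι] [DecidableEq ι] (L : Matrix ι ι ℝ) (hL : L.det ≠ 0)
    (c : ι → ℝ) (κ : ℝ) (hκ : 0 < κ)
    (h : ∀ n : ι → ℤ, κ < |∏ k, (∑ j, L k j * (n j : ℝ) + c k)|) :
    κ * aa ^ Fintype.card ι ≤
      |L.det| * (2 * Real.exp (3 * (1 / 4) ^ 13 * (Fintype.card ι : ℝ))) := by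
  set P : (ι → ℤ) → ℝ := fun n => |∏ k, (∑ j, L k j * (n j : ℝ) + c k)| with hP
  have hbdd : BddBelow (Set.range P) := ⟨κ, by
    rintro _ ⟨n, rfl⟩
    exact (h n).le⟩
  set m := ⨅ n, P n with hm
  have hmκ : κ ≤ m := le_ciInf (fun n => (h n).le)
  have hm0 : 0 < m := lt_of_lt_of_le hκ hmκ
  have ht0 : 0 < 1 - tau := by unfold tau; norm_num
  have ht1 : 1 - tau < 1 := by have := tau_pos; linarith
  have hlt : (⨅ n, P n) < m / (1 - tau) := by
    rw [← hm, lt_div_iff₀ ht0]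
    nlinarith
  obtain ⟨n₀, hn₀⟩ := exists_lt_of_ciInf_lt hlt
  have hn₀' : (1 - tau) * P n₀ ≤ m := by
    rw [lt_div_iff₀ ht0] at hn₀
    linarith
  set e : ι → ℝ := fun k => ∑ j, L k j * (n₀ j : ℝ) + c k with he
  have hPn₀ : P n₀ = |∏ k, e k| := rfl
  have hPpos : 0 < P n₀ := hκ.trans (h n₀)
  have hprod : ∏ k, e k ≠ 0 := by
    rw [hPn₀] at hPpos
    exact abs_pos.1 hPpos
  have hek : ∀ k, e k ≠ 0 := fun k => by
    have := Finset.prod_ne_zero_iff.1 hprod k (Finset.mem_univ k)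
    exact this
  set M : Matrix ι ι ℝ := Matrix.diagonal (fun k => (e k)⁻¹) * L with hM
  have hMe : ∀ k j, M k j = (e k)⁻¹ * L k j := by
    intro k j
    rw [hM, Matrix.diagonal_mul]
  have hdetM : M.det = (∏ k, e k)⁻¹ * L.det := by
    rw [hM, Matrix.det_mul, Matrix.det_diagonal, Finset.prod_inv_distrib]
  have hval : ∀ n : ι → ℤ, ∏ k, |∑ j, M k j * (n j : ℝ) + 1| = P (n + n₀) / P n₀ := by
    intro n
    have h1 : ∀ k, ∑ j, M k j * (n j : ℝ) + 1 =
        (∑ j, L k j * ((n + n₀) j : ℝ) + c k) / e k := by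
      intro k
      have h2 : ∑ j, M k j * (n j : ℝ) = (e k)⁻¹ * ∑ j, L k j * (n j : ℝ) := by
        rw [Finset.mul_sum]
        exact Finset.sum_congr rfl (fun j _ => by rw [hMe]; ring)
      have h3 : ∑ j, L k j * (((n + n₀) j : ℤ) : ℝ) =
          ∑ j, L k j * (n j : ℝ) + ∑ j, L k j * (n₀ j : ℝ) := by
        rw [← Finset.sum_add_distrib]
        refine Finset.sum_congr rfl (fun j _ => ?_)
        rw [Pi.add_apply]
        push_cast
        ring
      rw [h2, h3, eq_div_iff (hek k), add_mul, mul_assoc, mul_comm (∑ j, L k j * (n j : ℝ)) (e k),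
        ← mul_assoc, inv_mul_cancel₀ (hek k), one_mul, one_mul, add_assoc]
    simp only [h1, abs_div, Finset.prod_div_distrib]
    rw [hPn₀, Finset.abs_prod]
    congr 1
    show _ = |∏ k, (∑ j, L k j * (((n + n₀) j : ℤ) : ℝ) + c k)|
    rw [Finset.abs_prod]
  have hadm : ∀ n : ι → ℤ, 1 - tau ≤ ∏ k, |∑ j, M k j * (n j : ℝ) + 1| := by
    intro n
    rw [hval, le_div_iff₀ hPpos]
    exact hn₀'.trans (ciInf_le hbdd _)
  have hdet0 : M.det ≠ 0 := by
    rw [hdetM]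
    exact mul_ne_zero (inv_ne_zero hprod) hL
  have hcore := core M hdet0 hadm
  have habs : |M.det| = |L.det| / P n₀ := by
    rw [hdetM, abs_mul, abs_inv, hPn₀]
    field_simp
  rw [habs, div_mul_eq_mul_div, le_div_iff₀ hPpos] at hcore
  have haa : 0 < aa := lt_trans (Real.sqrt_pos.2 (by norm_num)) aa_lb
  calc κ * aa ^ Fintype.card ι ≤ P n₀ * aa ^ Fintype.card ι :=
        mul_le_mul_of_nonneg_right (h n₀).le (by positivity)
    _ = aa ^ Fintype.card ι * P n₀ := mul_comm _ _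
    _ ≤ _ := hcore

end Pool.Agent.Helper16.MK
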