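import Pool.Agent.Helper16.MK.Bal

/-!
MK-07. The product for the sum of two vectors with the same `PX`.

Proof. Let `X = PX v = PX v'`, `Y = NY v`, `Y' = NY v'`, `x = |X|`. `univ` is the disjoint union of
`Z = SM v ∩ SM v'`, `X`, `Y \ Y'`, `Y' \ Y`, `Y ∩ Y'`; moreover `SM v` is the disjoint union of `Z` and
`Y' \ Y` and `SM v'` that of `Z` and `Y \ Y'`. Bounds for `|v i + v' i + 1|`:
* `i ∈ Z`: `= 1 + v i + v' i ≤ exp (v i + v' i)`;
* `i ∈ X`: `abs_one_add_add_le`, at most `(1 + 2√2) exp ε`;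
* `i ∈ Y \ Y'`: `abs_one_sub_add_le` with `b = -v i = |v i|`, `w = v' i`;
* `i ∈ Y' \ Y`: the same with `b = -v' i`, `w = v i`;
* `i ∈ Y ∩ Y'`: `abs_one_sub_sub_le` with `b = -v i`, `b' = -v' i`.
Multiply. The exponent is at most `∑_Z (v i + v' i) + ε x + 4 ε (|Y \ Y'| + |Y' \ Y|) +
2 ∑_{Y \ Y'} (a - |v i|) + 2 ∑_{Y' \ Y} (a - |v' i|) + 3 (C + C') + 2 ε |Y ∩ Y'|` with
`C = ∑_{Y' \ Y} |v i|`, `C' = ∑_{Y \ Y'} |v' i|`; `∑_Z v i ≤ ∑_{SM v} v i + C`, `∑_Z v' i ≤
∑_{SM v'} v' i + C'`; `C, C' ≤ 12/10000 x` (`cross_le`, also with `v` and `v'` exchanged);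
`∑_{Y \ Y'} (a - |v i|) ≤ ∑_{TT v} (a - |v i|) ≤ 26 ε (x + |Y|) ≤ 52 ε x` (`tt_le`). Total:
`4 (C + C') ≤ 96/10000 x` and `ε x + 8 ε x + 208 ε x + 2 ε x = 219 ε x`.
-/

set_option autoImplicit false

namespace Pool.Agent.Helper16.MK

open Finset

variable {ι : Type*} [Fintype ι]

private theorem ite_prod [DecidableEq ι] (A : Finset ι) (f : ι → ℝ) :
    ∏ i, (if i ∈ A then f i else 1) = ∏ i ∈ A, f i := by
  rw [Finset.prod_ite_mem, Finset.univ_inter]

omit [Fintype ι] in
private theorem prod_const_exp (A : Finset ι) (c : ℝ) (e : ι → ℝ) :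
    ∏ i ∈ A, (c * Real.exp (e i)) = c ^ A.card * Real.exp (∑ i ∈ A, e i) := by
  rw [Finset.prod_mul_distrib, Finset.prod_const, Real.exp_sum]

private theorem sum_Z_le [DecidableEq ι] {v v' : ι → ℝ} (hX : PX v' = PX v) :
    ∑ i ∈ SM v ∩ SM v', v i ≤ ∑ i ∈ SM v, v i + ∑ i ∈ NY v' \ NY v, |v i| := by
  have h1 : SM v \ SM v' ⊆ NY v' \ NY v := by
    intro i hi
    rw [mem_sdiff, mem_SM, mem_SM] at hi
    obtain ⟨hi1, hi2⟩ := hi
    have h2 : i ∉ PX v := by
      rw [mem_PX]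
      have := (abs_lt.1 hi1).2
      linarith
    rw [← hX, mem_PX] at h2
    rw [mem_sdiff, mem_NY, mem_NY]
    rw [not_lt, le_abs] at hi2
    constructor
    · rcases hi2 with h | h
      · exact absurd h h2
      · linarith
    · have := (abs_lt.1 hi1).1
      linarith
  have h3 : ∑ i ∈ SM v ∩ SM v', v i + ∑ i ∈ SM v \ SM v', v i = ∑ i ∈ SM v, v i :=
    Finset.sum_inter_add_sum_sdiff _ _ _
  have h4 : ∑ i ∈ SM v \ SM v', -v i ≤ ∑ i ∈ NY v' \ NY v, |v i| :=
    (Finset.sum_le_sum fun i _ => neg_le_abs (v i)).trans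
      (Finset.sum_le_sum_of_subset_of_nonneg h1 fun i _ _ => abs_nonneg _)
  rw [Finset.sum_neg_distrib] at h4
  linarith

private theorem sum_Y_le [DecidableEq ι] {V : AddSubgroup (ι → ℝ)} (hV : Adm V) {v v' : ι → ℝ}
    (hv : v ∈ V) (hb : InBox v) (h0 : v ≠ 0) (hxy : (NY v).card ≤ (PX v).card) :
    ∑ i ∈ NY v \ NY v', (aa - -v i) ≤ 52 * eps * (PX v).card := by
  have h1 : ∑ i ∈ NY v \ NY v', (aa - -v i) = ∑ i ∈ NY v \ NY v', (aa - |v i|) := by
    refine Finset.sum_congr rfl fun i hi => ?_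
    rw [mem_sdiff, mem_NY] at hi
    rw [abs_of_nonpos (by linarith [hi.1])]
  have h2 : ∑ i ∈ NY v \ NY v', (aa - |v i|) ≤ ∑ i ∈ TT v, (aa - |v i|) := by
    refine Finset.sum_le_sum_of_subset_of_nonneg ?_ fun i _ _ => by linarith [hb i]
    intro i hi
    rw [mem_sdiff] at hi
    rw [TT_eq, mem_union]
    exact Or.inr hi.1
  have h3 := tt_le hV hv hb h0
  rw [card_TT] at h3
  push_cast at h3
  have h4 : ((NY v).card : ℝ) ≤ (PX v).card := by exact_mod_cast hxy
  have h5 := eps_pos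
  rw [h1]
  nlinarith [mul_le_mul_of_nonneg_left h4 h5.le]

theorem pair_prod_le [DecidableEq ι] {V : AddSubgroup (ι → ℝ)} (hV : Adm V) {v v' : ι → ℝ}
    (hv : v ∈ V) (hv' : v' ∈ V) (hb : InBox v) (hb' : InBox v') (h0 : v ≠ 0) (h0' : v' ≠ 0)
    (hX : PX v' = PX v) (hxy : (NY v).card ≤ (PX v).card) (hxy' : (NY v').card ≤ (PX v).card) :
    ∏ i, |v i + v' i + 1| ≤
      Real.exp (∑ i ∈ SM v, v i) * Real.exp (∑ i ∈ SM v', v' i) *
        ((1 + 2 * √2) ^ (PX v).card * (√2 - 1) ^ (NY v \ NY v').card *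
          (√2 - 1) ^ (NY v' \ NY v).card * (2 * √2 - 1) ^ (NY v ∩ NY v').card) *
        Real.exp ((96 / 10000 + 219 * eps) * (PX v).card) := by
  set A1 := PX v with hA1
  set A2 := NY v \ NY v' with hA2
  set A3 := NY v' \ NY v with hA3
  set A4 := NY v ∩ NY v' with hA4
  set A5 := SM v ∩ SM v' with hA5
  set f1 : ι → ℝ := fun _ => (1 + 2 * √2) * Real.exp eps with hf1
  set f2 : ι → ℝ := fun i => (√2 - 1) * Real.exp (4 * eps + 2 * (aa - -v i) + 3 * |v' i|)
    with hf2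
  set f3 : ι → ℝ := fun i => (√2 - 1) * Real.exp (4 * eps + 2 * (aa - -v' i) + 3 * |v i|)
    with hf3
  set f4 : ι → ℝ := fun _ => (2 * √2 - 1) * Real.exp (2 * eps) with hf4
  set f5 : ι → ℝ := fun i => 1 * Real.exp (v i + v' i) with hf5
  have hpt : ∀ i, |v i + v' i + 1| ≤ (if i ∈ A1 then f1 i else 1) * (if i ∈ A2 then f2 i else 1) *
      (if i ∈ A3 then f3 i else 1) * (if i ∈ A4 then f4 i else 1) *
      (if i ∈ A5 then f5 i else 1) := by
    intro i
    have hbi := abs_lt.1 (hb i)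
    have hbi' := abs_lt.1 (hb' i)
    have hXi : 1 / 2 ≤ v' i ↔ 1 / 2 ≤ v i := by
      rw [← mem_PX, ← mem_PX, hX]
    by_cases h1 : 1 / 2 ≤ v i
    · have h1' : 1 / 2 ≤ v' i := hXi.2 h1
      have m1 : i ∈ A1 := by rw [hA1, mem_PX]; exact h1
      have m2 : i ∉ A2 := by rw [hA2, mem_sdiff, mem_NY]; intro h; linarith [h.1]
      have m3 : i ∉ A3 := by rw [hA3, mem_sdiff, mem_NY]; intro h; linarith [h.1]
      have m4 : i ∉ A4 := by rw [hA4, mem_inter, mem_NY]; intro h; linarith [h.1]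
      have m5 : i ∉ A5 := by
        rw [hA5, mem_inter, mem_SM, abs_lt]; intro h; linarith [h.1.2]
      rw [if_pos m1, if_neg m2, if_neg m3, if_neg m4, if_neg m5, mul_one, mul_one, mul_one,
        mul_one]
      have h2 := abs_one_add_add_le (b := v i) (b' := v' i) (by linarith) hbi.2 (by linarith)
        hbi'.2
      rw [show v i + v' i + 1 = 1 + v i + v' i by ring]
      exact h2
    · have h1' : ¬ 1 / 2 ≤ v' i := fun h => h1 (hXi.1 h)
      rw [not_le] at h1 h1'
      have m1 : i ∉ A1 := by rw [hA1, mem_PX]; linarith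
      by_cases h2 : v i ≤ -(1 / 2)
      · have m3 : i ∉ A3 := by
          rw [hA3, mem_sdiff, mem_NY, mem_NY]; intro h; exact h.2 h2
        have m5 : i ∉ A5 := by
          rw [hA5, mem_inter, mem_SM, abs_lt]; intro h; linarith [h.1.1]
        by_cases h2' : v' i ≤ -(1 / 2)
        · have m2 : i ∉ A2 := by
            rw [hA2, mem_sdiff, mem_NY, mem_NY]; intro h; exact h.2 h2'
          have m4 : i ∈ A4 := by rw [hA4, mem_inter, mem_NY, mem_NY]; exact ⟨h2, h2'⟩
          rw [if_neg m1, if_neg m2, if_neg m3, if_pos m4, if_neg m5, mul_one, mul_one, mul_one,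
            one_mul]
          have h3 := abs_one_sub_sub_le (b := -v i) (b' := -v' i) (by linarith) (by linarith)
            (by linarith) (by linarith)
          rw [show v i + v' i + 1 = 1 - -v i - -v' i by ring]
          exact h3
        · have m2 : i ∈ A2 := by
            rw [hA2, mem_sdiff, mem_NY, mem_NY]; exact ⟨h2, h2'⟩
          have m4 : i ∉ A4 := by
            rw [hA4, mem_inter, mem_NY, mem_NY]; intro h; exact h2' h.2
          rw [if_neg m1, if_pos m2, if_neg m3, if_neg m4, if_neg m5, mul_one, mul_one, mul_one,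
            one_mul]
          have h3 := abs_one_sub_add_le (b := -v i) (w := v' i) (by linarith) (by linarith)
          rw [show v i + v' i + 1 = 1 - -v i + v' i by ring]
          exact h3
      · have m2 : i ∉ A2 := by
          rw [hA2, mem_sdiff, mem_NY, mem_NY]; intro h; exact h2 h.1
        have m4 : i ∉ A4 := by
          rw [hA4, mem_inter, mem_NY, mem_NY]; intro h; exact h2 h.1
        rw [not_le] at h2
        by_cases h2' : v' i ≤ -(1 / 2)
        · have m3 : i ∈ A3 := by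
            rw [hA3, mem_sdiff, mem_NY, mem_NY]; exact ⟨h2', by linarith⟩
          have m5 : i ∉ A5 := by
            rw [hA5, mem_inter, mem_SM, mem_SM, abs_lt, abs_lt]; intro h; linarith [h.2.1]
          rw [if_neg m1, if_neg m2, if_pos m3, if_neg m4, if_neg m5, mul_one, mul_one, one_mul,
            one_mul]
          have h3 := abs_one_sub_add_le (b := -v' i) (w := v i) (by linarith) (by linarith)
          rw [show v i + v' i + 1 = 1 - -v' i + v i by ring]
          exact h3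
        · rw [not_le] at h2'
          have m3 : i ∉ A3 := by
            rw [hA3, mem_sdiff, mem_NY, mem_NY]; intro h; linarith [h.1]
          have m5 : i ∈ A5 := by
            rw [hA5, mem_inter, mem_SM, mem_SM, abs_lt, abs_lt]
            exact ⟨⟨h2, h1⟩, ⟨h2', h1'⟩⟩
          rw [if_neg m1, if_neg m2, if_neg m3, if_neg m4, if_pos m5, one_mul, one_mul, one_mul,
            one_mul]
          rw [abs_of_nonneg (by linarith), hf5]
          simp only [one_mul]
          exact Real.add_one_le_exp _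
  have hprod : ∏ i, |v i + v' i + 1| ≤ (∏ i ∈ A1, f1 i) * (∏ i ∈ A2, f2 i) * (∏ i ∈ A3, f3 i) *
      (∏ i ∈ A4, f4 i) * (∏ i ∈ A5, f5 i) := by
    refine (Finset.prod_le_prod (fun i _ => abs_nonneg _) (fun i _ => hpt i)).trans (le_of_eq ?_)
    rw [Finset.prod_mul_distrib, Finset.prod_mul_distrib, Finset.prod_mul_distrib,
      Finset.prod_mul_distrib, ite_prod, ite_prod, ite_prod, ite_prod, ite_prod]
  refine hprod.trans ?_
  rw [hf1, hf2, hf3, hf4, hf5, prod_const_exp A1 (1 + 2 * √2) (fun _ => eps),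
    prod_const_exp A2 (√2 - 1), prod_const_exp A3 (√2 - 1),
    prod_const_exp A4 (2 * √2 - 1) (fun _ => 2 * eps), prod_const_exp A5 1]
  have hs1 : 0 < √2 - 1 := by have := sqrt2_lb; linarith
  have hs3 : 0 < 2 * √2 - 1 := by have := sqrt2_lb; linarith
  have hs4 : 0 < 1 + 2 * √2 := by have := sqrt2_lb; linarith
  set Q := (1 + 2 * √2) ^ A1.card * (√2 - 1) ^ A2.card * (√2 - 1) ^ A3.card *
    (2 * √2 - 1) ^ A4.card with hQ
  have hQp : 0 < Q := by positivity
  set T1 := ∑ i ∈ A1, eps with hT1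
  set T2 := ∑ i ∈ A2, (4 * eps + 2 * (aa - -v i) + 3 * |v' i|) with hT2
  set T3 := ∑ i ∈ A3, (4 * eps + 2 * (aa - -v' i) + 3 * |v i|) with hT3
  set T4 := ∑ i ∈ A4, 2 * eps with hT4
  set T5 := ∑ i ∈ A5, (v i + v' i) with hT5
  have e1 : (1 + 2 * √2) ^ A1.card * Real.exp T1 * ((√2 - 1) ^ A2.card * Real.exp T2) *
      ((√2 - 1) ^ A3.card * Real.exp T3) * ((2 * √2 - 1) ^ A4.card * Real.exp T4) *
      (1 ^ A5.card * Real.exp T5) = Q * Real.exp (T1 + T2 + T3 + T4 + T5) := by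
    rw [Real.exp_add, Real.exp_add, Real.exp_add, Real.exp_add, hQ]
    ring
  have e2 : Real.exp (∑ i ∈ SM v, v i) * Real.exp (∑ i ∈ SM v', v' i) * Q *
      Real.exp ((96 / 10000 + 219 * eps) * A1.card) =
      Q * Real.exp (∑ i ∈ SM v, v i + ∑ i ∈ SM v', v' i +
        (96 / 10000 + 219 * eps) * A1.card) := by
    rw [Real.exp_add, Real.exp_add]
    ring
  rw [e1, e2]
  refine mul_le_mul_of_nonneg_left (Real.exp_le_exp.2 ?_) hQp.le
  have hT1v : T1 = A1.card * eps := by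
    rw [hT1, Finset.sum_const, nsmul_eq_mul]
  have hT4v : T4 = A4.card * (2 * eps) := by
    rw [hT4, Finset.sum_const, nsmul_eq_mul]
  have hT2v : T2 = A2.card * (4 * eps) + 2 * ∑ i ∈ A2, (aa - -v i) + 3 * ∑ i ∈ A2, |v' i| := by
    rw [hT2, Finset.sum_add_distrib, Finset.sum_add_distrib, Finset.sum_const, nsmul_eq_mul,
      Finset.mul_sum, Finset.mul_sum]
  have hT3v : T3 = A3.card * (4 * eps) + 2 * ∑ i ∈ A3, (aa - -v' i) + 3 * ∑ i ∈ A3, |v i| := by
    rw [hT3, Finset.sum_add_distrib, Finset.sum_add_distrib, Finset.sum_const, nsmul_eq_mul,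
      Finset.mul_sum, Finset.mul_sum]
  have hT5v : T5 = ∑ i ∈ A5, v i + ∑ i ∈ A5, v' i := by
    rw [hT5, Finset.sum_add_distrib]
  have g1 := sum_Z_le hX
  have g2 := sum_Z_le (v := v') (v' := v) hX.symm
  rw [Finset.inter_comm] at g2
  have hxyv' : (NY v').card ≤ (PX v').card := by rw [hX]; exact hxy'
  have g3 := sum_Y_le (v' := v') hV hv hb h0 hxy
  have g4 := sum_Y_le (v' := v) hV hv' hb' h0' hxyv'
  have g5 := cross_le hV hv hb h0 hX hxy hxy'
  have g6 := cross_le hV hv' hb' h0' hX.symm hxyv' (by rw [hX]; exact hxy)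
  rw [hX] at g4 g6
  have c2 : (A2.card : ℝ) ≤ A1.card := by
    exact_mod_cast (Finset.card_le_card Finset.sdiff_subset).trans hxy
  have c3 : (A3.card : ℝ) ≤ A1.card := by
    exact_mod_cast (Finset.card_le_card Finset.sdiff_subset).trans hxy'
  have c4 : (A4.card : ℝ) ≤ A1.card := by
    exact_mod_cast (Finset.card_le_card Finset.inter_subset_left).trans hxy
  have he := eps_pos
  have d2 := mul_le_mul_of_nonneg_right c2 he.le
  have d3 := mul_le_mul_of_nonneg_right c3 he.le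
  have d4 := mul_le_mul_of_nonneg_right c4 he.le
  rw [hT1v, hT2v, hT3v, hT4v, hT5v]
  linarith

end Pool.Agent.Helper16.MK
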