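import Mathlib

/-!
MK-11. Second moment (Cauchy-Schwarz form of Blichfeldt's theorem): for a measurable set `S` in
`ι → ℝ`, `vol(S)² ≤ ∑_{n ∈ ℤ^ι} vol (S ∩ (S - n))`.

Proof. `Q = Set.univ.pi (fun _ => Set.Ico 0 1)` is a fundamental domain of the integer vectors, of volume
`1` (`ZSpan.isAddFundamentalDomain` for `Pi.basisFun ℝ ι`, or directly: `ι → ℝ` is the disjoint union of
the sets `Q + n`, `n : ι → ℤ` (integer parts of the coordinates), and the measure is translation
invariant). Let `f(x) = ∑_n 1_S (x + n)` (in `ℝ≥0∞`). Then `∫⁻_Q f = vol S` and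
`∫⁻_Q f² = ∑_{n, m} vol {x ∈ Q | x + n ∈ S, x + m ∈ S} = ∑_k ∑_n vol {x ∈ Q | x + n ∈ S, x + n + k ∈ S} =
∑_k vol {y | y ∈ S, y + k ∈ S}`. Cauchy-Schwarz (`ENNReal.lintegral_mul_le_Lp_mul_Lq`, or
`2 f c ≤ f² + c²` for a constant `c`) on `Q`: `(∫⁻_Q f)² ≤ ∫⁻_Q f²`.
-/

set_option autoImplicit false

namespace Pool.Agent.Helper16.MK

open MeasureTheory

/-- the integer vector `n` as a real vector -/
private def cst {ι : Type*} (n : ι → ℤ) : ι → ℝ := fun i => (n i : ℝ)

private theorem cst_add {ι : Type*} (n k : ι → ℤ) : cst (n + k) = cst n + cst k := by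
  ext i
  simp [cst]

/-- the cell of `n` -/
private def cell {ι : Type*} (n : ι → ℤ) : Set (ι → ℝ) := {y | (fun i => ⌊y i⌋) = n}

private theorem cell_meas {ι : Type*} [Fintype ι] (n : ι → ℤ) : MeasurableSet (cell n) := by
  have h : Measurable fun y : ι → ℝ => fun i => ⌊y i⌋ := by
    refine measurable_pi_lambda _ fun i => ?_
    exact Int.measurable_floor.comp (measurable_pi_apply i)
  exact h (MeasurableSet.singleton n)

private theorem cell_shift {ι : Type*} (n : ι → ℤ) (x : ι → ℝ) :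
    x + cst n ∈ cell n ↔ x ∈ cell (0 : ι → ℤ) := by
  unfold cell cst
  simp only [Set.mem_setOf_eq, Pi.add_apply, Int.floor_add_intCast, funext_iff, Pi.zero_apply]
  constructor
  · intro h i
    have := h i
    omega
  · intro h i
    have := h i
    omega

private theorem vol_cell {ι : Type*} [Fintype ι] : volume (cell (0 : ι → ℤ)) = 1 := by
  have h : cell (0 : ι → ℤ) = Set.pi Set.univ (fun _ => Set.Ico (0 : ℝ) 1) := by
    ext y
    unfold cell
    simp only [Set.mem_setOf_eq, funext_iff, Pi.zero_apply, Set.mem_pi, Set.mem_univ,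
      forall_true_left, Set.mem_Ico, Int.floor_eq_zero_iff]
  rw [h, Real.volume_pi_Ico]
  simp

private theorem fold {ι : Type*} [Fintype ι] (F : (ι → ℝ) → ENNReal) :
    ∫⁻ y, F y = ∑' n : ι → ℤ, ∫⁻ x in cell (0 : ι → ℤ), F (x + cst n) := by
  have h1 : ∫⁻ y, F y = ∫⁻ y in ⋃ n : ι → ℤ, cell n, F y := by
    have : (⋃ n : ι → ℤ, cell n) = Set.univ := by
      rw [Set.eq_univ_iff_forall]
      intro y
      exact Set.mem_iUnion.2 ⟨fun i => ⌊y i⌋, rfl⟩
    rw [this, Measure.restrict_univ]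
  rw [h1, lintegral_iUnion (fun n => cell_meas n)]
  · refine tsum_congr fun n => ?_
    rw [← lintegral_indicator (cell_meas n), ← lintegral_indicator (cell_meas _),
      ← lintegral_add_right_eq_self _ (cst n)]
    refine lintegral_congr fun x => ?_
    by_cases hx : x ∈ cell (0 : ι → ℤ)
    · rw [Set.indicator_of_mem hx, Set.indicator_of_mem ((cell_shift n x).2 hx)]
    · rw [Set.indicator_of_notMem hx,
        Set.indicator_of_notMem (fun h => hx ((cell_shift n x).1 h))]
  · intro n m hnm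
    rw [Function.onFun, Set.disjoint_left]
    intro y hy hy'
    exact hnm (hy.symm.trans hy')

private theorem cs {α : Type*} [MeasurableSpace α] (μ : Measure α) (hμ : μ Set.univ = 1)
    (f : α → ENNReal) (hf : Measurable f) : (∫⁻ x, f x ∂μ) ^ 2 ≤ ∫⁻ x, f x ^ 2 ∂μ := by
  have h := ENNReal.lintegral_mul_le_Lp_mul_Lq μ Real.HolderConjugate.two_two
    hf.aemeasurable (g := fun _ => 1) aemeasurable_const
  have h1 : ∫⁻ a, (f * (fun _ => 1 : α → ENNReal)) a ∂μ = ∫⁻ a, f a ∂μ := by
    refine lintegral_congr fun a => ?_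
    simp
  have h2 : ∫⁻ _, (1 : ENNReal) ^ (2 : ℝ) ∂μ = 1 := by
    simp [hμ]
  rw [h1, h2, ENNReal.one_rpow, mul_one] at h
  have h3 : ∫⁻ a, f a ^ (2 : ℝ) ∂μ = ∫⁻ a, f a ^ 2 ∂μ := by
    refine lintegral_congr fun a => ?_
    rw [← ENNReal.rpow_natCast]
    norm_num
  rw [h3] at h
  calc (∫⁻ x, f x ∂μ) ^ 2 ≤ ((∫⁻ a, f a ^ 2 ∂μ) ^ (1 / (2 : ℝ))) ^ 2 := by gcongr
    _ = ∫⁻ a, f a ^ 2 ∂μ := by
      rw [← ENNReal.rpow_natCast, ← ENNReal.rpow_mul]
      norm_num

theorem second_moment_le {ι : Type*} [Fintype ι] (S : Set (ι → ℝ)) (hS : MeasurableSet S) :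
    volume S ^ 2 ≤ ∑' n : ι → ℤ, volume (S ∩ {y | (fun i => y i + (n i : ℝ)) ∈ S}) := by
  classical
  set g : (ι → ℝ) → ENNReal := S.indicator 1 with hg
  have hgm : Measurable g := measurable_one.indicator hS
  have hgn : ∀ n : ι → ℤ, Measurable fun x : ι → ℝ => g (x + cst n) := fun n =>
    hgm.comp (measurable_add_const (cst n))
  set f : (ι → ℝ) → ENNReal := fun x => ∑' n : ι → ℤ, g (x + cst n) with hf
  have hfm : Measurable f := Measurable.ennreal_tsum fun n => hgn n
  have h1 : ∫⁻ x in cell (0 : ι → ℤ), f x = volume S := by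
    rw [hf, lintegral_tsum fun n => (hgn n).aemeasurable, ← fold g, hg,
      lintegral_indicator_one hS]
  have h2 : ∫⁻ x in cell (0 : ι → ℤ), f x ^ 2 =
      ∑' n : ι → ℤ, volume (S ∩ {y | (fun i => y i + (n i : ℝ)) ∈ S}) := by
    have e1 : ∀ x, f x ^ 2 = ∑' k : ι → ℤ, ∑' n : ι → ℤ, g (x + cst n) * g (x + cst n + cst k) := by
      intro x
      rw [sq, hf]
      simp only
      rw [ENNReal.tsum_comm, ← ENNReal.tsum_mul_right]
      refine tsum_congr fun n => ?_
      rw [← ENNReal.tsum_mul_left]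
      rw [← (Equiv.addLeft n).tsum_eq fun m => g (x + cst n) * g (x + cst m)]
      refine tsum_congr fun k => ?_
      rw [Equiv.coe_addLeft, cst_add, add_assoc]
    have e2 : ∫⁻ x in cell (0 : ι → ℤ), f x ^ 2 =
        ∑' k : ι → ℤ, ∑' n : ι → ℤ, ∫⁻ x in cell (0 : ι → ℤ),
          g (x + cst n) * g (x + cst n + cst k) := by
      rw [lintegral_congr e1]
      rw [lintegral_tsum]
      · refine tsum_congr fun k => ?_
        rw [lintegral_tsum]
        intro n
        exact ((hgn n).mul ((hgm.comp (measurable_add_const (cst k))).comp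
          (measurable_add_const (cst n)))).aemeasurable
      · intro k
        refine (Measurable.ennreal_tsum fun n => ?_).aemeasurable
        exact (hgn n).mul ((hgm.comp (measurable_add_const (cst k))).comp
          (measurable_add_const (cst n)))
    rw [e2]
    refine tsum_congr fun k => ?_
    rw [← fold fun y => g y * g (y + cst k)]
    have hSk : MeasurableSet (S ∩ {y | (fun i => y i + (k i : ℝ)) ∈ S}) :=
      hS.inter ((measurable_add_const (cst k)) hS)
    rw [← lintegral_indicator_one hSk]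
    refine lintegral_congr fun y => ?_
    by_cases hy : y ∈ S
    · by_cases hy' : y + cst k ∈ S
      · have : y ∈ S ∩ {y | (fun i => y i + (k i : ℝ)) ∈ S} := ⟨hy, hy'⟩
        rw [Set.indicator_of_mem this, hg, Set.indicator_of_mem hy, Set.indicator_of_mem hy']
        simp
      · have : y ∉ S ∩ {y | (fun i => y i + (k i : ℝ)) ∈ S} := fun h => hy' h.2
        rw [Set.indicator_of_notMem this, hg, Set.indicator_of_notMem hy', mul_zero]
    · have : y ∉ S ∩ {y | (fun i => y i + (k i : ℝ)) ∈ S} := fun h => hy h.1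
      rw [Set.indicator_of_notMem this, hg, Set.indicator_of_notMem hy, zero_mul]
  rw [← h1, ← h2]
  refine cs (volume.restrict (cell (0 : ι → ℤ))) ?_ f hfm
  rw [Measure.restrict_apply_univ, vol_cell]

end Pool.Agent.Helper16.MK
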