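import Pool.Agent.Helper16.MK.Basic

/-!
MK-01. Scalar inequalities. Throughout `s = √2`, `1.41421356 < s < 1.41421357` (`sqrt2_lb`,
`sqrt2_ub`), `a = aa = s (1 + ε) < 1.4143`, `0 < ε ≤ 1 / 20000000`; only `Real.add_one_le_exp` is needed.

Proofs.
* `abs_sq_sub_one_le`. If `b ≤ 1` then `|b² - 1| = 1 - b² ≤ 3/4` and the right side is at least
  `1 + (b - s)/4 + 5 ε ≥ 1 + (1/2 - 1.4143)/4 ≥ 3/4`. If `b > 1` then
  `|b² - 1| = 1 + (b² - 2) ≤ exp (b² - 2)` and `b² - 2 = (b - s)(b + s) ≤ (b - s)/4 + 5 ε`: for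
  `b ≤ s` because `b + s ≥ 1/4`; for `s < b < a` because `(b - s)(b + s) ≤ s ε (2 s + s ε) ≤ 5 ε`.
* `abs_sq_sub_one_le_small`: `|t² - 1| = 1 - t² ≤ exp (-t²)`.
* `abs_one_sub_add_le`. First `|1 - b| ≤ (s - 1) + s ε + (a - b)/2`: for `b ≥ 1` it is
  `b - 1 < a - 1 = s - 1 + s ε`; for `b < 1` it is `1 - b ≤ s - 1 + (a - b)/2` because
  `s - 1 + (s - b)/2 - (1 - b) = 3 s / 2 - 2 + b / 2 > 0`. Hence
  `|1 - b + w| ≤ (s - 1) (1 + (s + 1) (s ε + (a - b)/2 + |w|))` (`(s - 1) (s + 1) = 1`) and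
  `(s + 1) s ≤ 4`, `(s + 1)/2 ≤ 2`, `s + 1 ≤ 3`.
* `abs_one_add_le`: `1 + b ≤ 1 + a = 1 + s + s ε ≤ (1 + s)(1 + ε)`.
* `abs_one_add_add_le`: `1 + b + b' ≤ 1 + 2 a = 1 + 2 s + 2 s ε ≤ (1 + 2 s)(1 + ε)`.
* `abs_one_sub_sub_le`: `|1 - b - b'| = b + b' - 1 ≤ 2 a - 1 = 2 s - 1 + 2 s ε ≤ (2 s - 1)(1 + 2 ε)`.
* `key_num`: `4 s - 5 ≤ 0.6568543`, its fifth power is at most `0.12229`, and
  `exp (6/100) ≤ 1 / (1 - 6/100)`, so the product is at most `0.9107`. (True value `0.9089`.)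
* `tau_pow`: Bernoulli (`one_add_mul_le_pow`).
-/

set_option autoImplicit false

namespace Pool.Agent.Helper16.MK

theorem abs_sq_sub_one_le {b : ℝ} (h1 : 1 / 2 ≤ b) (h2 : b < aa) :
    |b ^ 2 - 1| ≤ Real.exp ((b - √2) / 4 + 5 * eps) := by
  have hs1 := sqrt2_lb
  have hs2 := sqrt2_ub
  have hs3 := sqrt2_sq
  have he := eps_pos
  have he2 := eps_le
  have ha := aa_sub
  rcases le_or_gt b 1 with hb | hb
  · have h3 : |b ^ 2 - 1| ≤ 3 / 4 := by
      rw [abs_le]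
      constructor <;> nlinarith
    have h4 := Real.add_one_le_exp ((b - √2) / 4 + 5 * eps)
    refine h3.trans (le_trans ?_ h4)
    linarith
  · have h3 : |b ^ 2 - 1| = 1 + (b ^ 2 - 2) := by
      rw [abs_of_pos (by nlinarith)]
      ring
    have h4 := Real.add_one_le_exp (b ^ 2 - 2)
    rw [h3]
    refine le_trans (by linarith) (le_trans h4 (Real.exp_le_exp.2 ?_))
    rcases le_or_gt b (√2) with hbs | hbs
    · nlinarith
    · have h5 : b - √2 ≤ √2 * eps := by linarith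
      have h6 : b + √2 ≤ 2.9 := by
        have := aa_ub
        linarith
      have h7 : b ^ 2 - 2 = (b - √2) * (b + √2) := by
        have : (b - √2) * (b + √2) = b ^ 2 - √2 * √2 := by ring
        rw [this, hs3]
      have h8 : (b - √2) * (b + √2) ≤ (√2 * eps) * 2.9 :=
        mul_le_mul h5 h6 (by linarith) (by positivity)
      have h9 : √2 * eps ≤ 1.41421357 * eps := mul_le_mul_of_nonneg_right hs2.le he.le
      rw [h7]
      linarith

theorem abs_sq_sub_one_le_small {t : ℝ} (h : |t| < 1 / 2) :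
    |t ^ 2 - 1| ≤ Real.exp (-t ^ 2) := by
  have h1 := Real.add_one_le_exp (-t ^ 2)
  have h2 : t ^ 2 < 1 := by
    rw [abs_lt] at h
    nlinarith
  rw [abs_of_neg (by linarith)]
  linarith

private theorem abs_one_sub_le {b : ℝ} (h1 : 1 / 2 ≤ b) (h2 : b < aa) :
    |1 - b| ≤ (√2 - 1) + √2 * eps + (aa - b) / 2 := by
  have hs1 := sqrt2_lb
  have he := eps_pos
  have ha := aa_sub
  have hse : 0 < √2 * eps := by positivity
  rcases le_or_gt 1 b with hb | hb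
  · rw [abs_of_nonpos (by linarith)]
    linarith
  · rw [abs_of_pos (by linarith)]
    linarith

theorem abs_one_sub_add_le {b w : ℝ} (h1 : 1 / 2 ≤ b) (h2 : b < aa) :
    |1 - b + w| ≤ (√2 - 1) * Real.exp (4 * eps + 2 * (aa - b) + 3 * |w|) := by
  have hs1 := sqrt2_lb
  have hs2 := sqrt2_ub
  have hs3 := sqrt2_sq
  have he := eps_pos
  have h3 := abs_one_sub_le h1 h2
  have h4 : |1 - b + w| ≤ |1 - b| + |w| := abs_add_le _ _
  have h5 := Real.add_one_le_exp (4 * eps + 2 * (aa - b) + 3 * |w|)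
  have h6 : (√2 - 1) * (4 * eps + 2 * (aa - b) + 3 * |w| + 1) ≤
      (√2 - 1) * Real.exp (4 * eps + 2 * (aa - b) + 3 * |w|) :=
    mul_le_mul_of_nonneg_left h5 (by linarith)
  refine h4.trans (le_trans ?_ h6)
  have hw := abs_nonneg w
  have h7 : √2 * eps ≤ (√2 - 1) * (4 * eps) := by nlinarith
  have h8 : (aa - b) / 2 ≤ (√2 - 1) * (2 * (aa - b)) := by nlinarith
  have h9 : |w| ≤ (√2 - 1) * (3 * |w|) := by nlinarith
  nlinarith

theorem abs_one_add_le {b : ℝ} (h1 : 0 ≤ b) (h2 : b < aa) :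
    |1 + b| ≤ (√2 + 1) * Real.exp eps := by
  have hs1 := sqrt2_lb
  have he := eps_pos
  have ha := aa_sub
  have h5 := Real.add_one_le_exp eps
  have h6 : (√2 + 1) * (eps + 1) ≤ (√2 + 1) * Real.exp eps :=
    mul_le_mul_of_nonneg_left h5 (by linarith)
  rw [abs_of_pos (by linarith)]
  refine le_trans ?_ h6
  nlinarith

theorem abs_one_add_add_le {b b' : ℝ} (h1 : 0 ≤ b) (h2 : b < aa) (h3 : 0 ≤ b') (h4 : b' < aa) :
    |1 + b + b'| ≤ (1 + 2 * √2) * Real.exp eps := by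
  have hs1 := sqrt2_lb
  have he := eps_pos
  have ha := aa_sub
  have h5 := Real.add_one_le_exp eps
  have h6 : (1 + 2 * √2) * (eps + 1) ≤ (1 + 2 * √2) * Real.exp eps :=
    mul_le_mul_of_nonneg_left h5 (by linarith)
  rw [abs_of_pos (by linarith)]
  refine le_trans ?_ h6
  nlinarith

theorem abs_one_sub_sub_le {b b' : ℝ} (h1 : 1 / 2 ≤ b) (h2 : b < aa) (h3 : 1 / 2 ≤ b')
    (h4 : b' < aa) : |1 - b - b'| ≤ (2 * √2 - 1) * Real.exp (2 * eps) := by
  have hs1 := sqrt2_lb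
  have he := eps_pos
  have ha := aa_sub
  have h5 := Real.add_one_le_exp (2 * eps)
  have h6 : (2 * √2 - 1) * (2 * eps + 1) ≤ (2 * √2 - 1) * Real.exp (2 * eps) :=
    mul_le_mul_of_nonneg_left h5 (by linarith)
  rw [abs_of_nonpos (by linarith)]
  refine le_trans ?_ h6
  nlinarith

theorem key_num : 7 * (4 * √2 - 5) ^ 5 * Real.exp (6 / 100) ≤ 92 / 100 := by
  have hs1 := sqrt2_lb
  have hs2 := sqrt2_ub
  have h1 : 4 * √2 - 5 ≤ 0.6568543 := by linarith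
  have h0 : 0 ≤ 4 * √2 - 5 := by linarith
  have h2 : (4 * √2 - 5) ^ 5 ≤ 0.6568543 ^ 5 := pow_le_pow_left₀ h0 h1 5
  have h3 : Real.exp (6 / 100) ≤ 1 / (1 - 6 / 100) := by
    have h4 := Real.add_one_le_exp (-(6 / 100 : ℝ))
    rw [Real.exp_neg] at h4
    have h5 := Real.exp_pos (6 / 100 : ℝ)
    rw [le_div_iff₀ (by norm_num)]
    have h6 : (-(6 / 100 : ℝ) + 1) * Real.exp (6 / 100) ≤
        (Real.exp (6 / 100))⁻¹ * Real.exp (6 / 100) := mul_le_mul_of_nonneg_right h4 h5.le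
    rw [inv_mul_cancel₀ h5.ne'] at h6
    linarith
  calc 7 * (4 * √2 - 5) ^ 5 * Real.exp (6 / 100)
      ≤ 7 * 0.6568543 ^ 5 * (1 / (1 - 6 / 100)) := by
        apply mul_le_mul _ h3 (Real.exp_pos _).le (by positivity)
        linarith
    _ ≤ 92 / 100 := by norm_num

theorem tau_pow : 99 / 100 ≤ (1 - tau) ^ 18 := by
  unfold tau
  norm_num

end Pool.Agent.Helper16.MK
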