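import Pool.Agent.Helper16.MK.Scal
import Pool.Agent.Helper16.MK.Uniq

/-!
MK-04. Estimates for one vector of `V` in the cube.

Proof. Let `r = |TT v| ≥ 1` (`one_le_card`). By `Adm.sq`, `SM_union_TT`, `disj_SM_TT`,
`abs_sq_sub_one_le_small` on `SM v` and `abs_sq_sub_one_le` (with `b = |v i|`, `sq_abs`) on `TT v`:
`(1 - τ)² ≤ ∏ |v i² - 1| ≤ exp (-∑_{SM} v i² + ∑_{TT} ((|v i| - √2)/4 + 5 ε))`, and
`exp (-4 τ) ≤ (1 - τ)²` (for instance `exp (-4τ) ≤ 1 / (1 + 4 τ)`). So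
`∑_{SM} v i² + ∑_{TT} (√2 - |v i|)/4 ≤ 5 ε r + 4 τ ≤ 6 ε r` (`four_tau_le`). This is `cost_le`.
`sm_le`: `√2 - |v i| ≥ √2 - a = -√2 ε` on `TT v`, so `∑_{SM} v i² ≤ 6 ε r + √2 ε r / 4 ≤ 7 ε r`.
`tt_le`: `a - |v i| = √2 ε + (√2 - |v i|)` and `∑_{TT} (√2 - |v i|) ≤ 24 ε r`.
-/

set_option autoImplicit false

namespace Pool.Agent.Helper16.MK

open Finset

variable {ι : Type*} [Fintype ι]

theorem cost_le {V : AddSubgroup (ι → ℝ)} (hV : Adm V) {v : ι → ℝ} (hv : v ∈ V)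
    (hb : InBox v) (h0 : v ≠ 0) :
    ∑ i ∈ SM v, v i ^ 2 + (∑ i ∈ TT v, (√2 - |v i|)) / 4 ≤ 6 * eps * (TT v).card := by
  classical
  have hr := one_le_card hV hv h0
  have h1 := Adm.sq hV hv
  have h2 : ∏ i, |v i ^ 2 - 1| ≤ Real.exp (-(∑ i ∈ SM v, v i ^ 2) +
      ∑ i ∈ TT v, ((|v i| - √2) / 4 + 5 * eps)) := by
    rw [← SM_union_TT v, Finset.prod_union (disj_SM_TT v), Real.exp_add]
    refine mul_le_mul ?_ ?_ (Finset.prod_nonneg fun i _ => abs_nonneg _) (Real.exp_pos _).le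
    · rw [← Finset.sum_neg_distrib, Real.exp_sum]
      exact Finset.prod_le_prod (fun i _ => abs_nonneg _)
        (fun i hi => abs_sq_sub_one_le_small (mem_SM.1 hi))
    · rw [Real.exp_sum]
      refine Finset.prod_le_prod (fun i _ => abs_nonneg _) (fun i hi => ?_)
      have := abs_sq_sub_one_le (mem_TT.1 hi) (hb i)
      rwa [sq_abs] at this
  have h3 : Real.exp (-(4 * tau)) ≤ (1 - tau) ^ 2 := by
    have h4 : 1 + 4 * tau ≤ Real.exp (4 * tau) := by linarith [Real.add_one_le_exp (4 * tau)]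
    have ht := tau_pos
    rw [Real.exp_neg]
    have h5 : (Real.exp (4 * tau))⁻¹ ≤ (1 + 4 * tau)⁻¹ := inv_anti₀ (by positivity) h4
    refine h5.trans ?_
    rw [inv_le_iff_one_le_mul₀ (by positivity)]
    unfold tau
    norm_num
  have h6 := Real.exp_le_exp.1 (h3.trans (h1.trans h2))
  have h7 : ∑ i ∈ TT v, ((|v i| - √2) / 4 + 5 * eps) =
      -((∑ i ∈ TT v, (√2 - |v i|)) / 4) + 5 * eps * (TT v).card := by
    rw [Finset.sum_add_distrib, Finset.sum_const, nsmul_eq_mul, Finset.sum_div,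
      ← Finset.sum_neg_distrib]
    congr 1
    · exact Finset.sum_congr rfl fun i _ => by ring
    · ring
  rw [h7] at h6
  have h8 : (1 : ℝ) ≤ (TT v).card := by exact_mod_cast hr
  have h9 := four_tau_le
  have h10 := eps_pos
  nlinarith

theorem sm_le {V : AddSubgroup (ι → ℝ)} (hV : Adm V) {v : ι → ℝ} (hv : v ∈ V)
    (hb : InBox v) (h0 : v ≠ 0) :
    ∑ i ∈ SM v, v i ^ 2 ≤ 7 * eps * (TT v).card := by
  have h1 := cost_le hV hv hb h0
  have h2 : ∑ i ∈ TT v, -(√2 * eps) ≤ ∑ i ∈ TT v, (√2 - |v i|) := by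
    refine Finset.sum_le_sum fun i _ => ?_
    have h3 := hb i
    have h4 := aa_sub
    linarith
  rw [Finset.sum_const, nsmul_eq_mul] at h2
  have h5 : √2 * eps ≤ 4 * eps := by
    have := sqrt2_ub
    have := eps_pos
    nlinarith
  have h6 : ((TT v).card : ℝ) * (√2 * eps) ≤ ((TT v).card : ℝ) * (4 * eps) :=
    mul_le_mul_of_nonneg_left h5 (Nat.cast_nonneg _)
  nlinarith

theorem tt_le {V : AddSubgroup (ι → ℝ)} (hV : Adm V) {v : ι → ℝ} (hv : v ∈ V)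
    (hb : InBox v) (h0 : v ≠ 0) :
    ∑ i ∈ TT v, (aa - |v i|) ≤ 26 * eps * (TT v).card := by
  have h1 := cost_le hV hv hb h0
  have h2 : 0 ≤ ∑ i ∈ SM v, v i ^ 2 := Finset.sum_nonneg fun i _ => sq_nonneg _
  have h3 : ∑ i ∈ TT v, (aa - |v i|) = (TT v).card * (√2 * eps) + ∑ i ∈ TT v, (√2 - |v i|) := by
    rw [← nsmul_eq_mul, ← Finset.sum_const, ← Finset.sum_add_distrib]
    refine Finset.sum_congr rfl fun i _ => ?_
    have h4 := aa_sub
    linarith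
  rw [h3]
  have h5 : √2 * eps ≤ 2 * eps := by
    have := sqrt2_ub
    have := eps_pos
    nlinarith
  have h6 : ((TT v).card : ℝ) * (√2 * eps) ≤ ((TT v).card : ℝ) * (2 * eps) :=
    mul_le_mul_of_nonneg_left h5 (Nat.cast_nonneg _)
  nlinarith

end Pool.Agent.Helper16.MK
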